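import Mathlib
import Pool.Agent.R590.BrFin

set_option autoImplicit false

/-!
# Ranks of the children of a node
-/

namespace Pool.Agent.W2helper54.GB

open Cardinal Set Ordinal Pool.Agent.R590.Kur Pool.Agent.R590.Brl

variable {κ : Cardinal.{0}}

/-- `g` is a good assignment of ranks to the children of a node of rank `η > 0`; the child with
index `j` is valid if `g j < η`. -/
structure Good (κ : Cardinal.{0}) (η : Ordinal.{0}) (g : κ.ord.ToType → Ordinal.{0}) : Prop where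
  le : ∀ j, g j ≤ η
  ne : ∃ m, g m < η
  nomax : ∀ m, g m < η → ∃ j, m < j ∧ g j < η
  small : ∀ α < η, #{j | g j < α} < κ
  bd : ∀ α < η, ∀ S : Set κ.ord.ToType, #S < κ → (∀ j ∈ S, g j < η ∧ g j ≤ α) →
    ∃ m, g m < η ∧ ∀ j ∈ S, j ≤ m
  cof : ∀ α < η, ∃ j, α ≤ g j ∧ g j < η
  suc : Order.IsSuccLimit η → ∀ j, g j < η → ∃ ζ, g j = ζ + 1
  few : Order.IsSuccLimit η → η.cof < κ → #{j | g j < η} < κ
  eqs : ∀ ζ, η = ζ + 1 → ∀ j, g j = ζ

theorem small_of_bd {κ : Cardinal.{0}} (S : Set κ.ord.ToType) (i : κ.ord.ToType)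
    (h : ∀ j ∈ S, j < i) : #S < κ :=
  (mk_le_mk_of_subset (fun j hj => h j hj : S ⊆ Iio i)).trans_lt (mk_Iio_lt' i)

theorem exists_gt (hκ : κ.IsRegular) (i : κ.ord.ToType) : ∃ j, i < j := by
  obtain ⟨β, hβ⟩ := exists_ub hκ (M := Unit) (by rw [mk_unit]; exact lt_of_lt_of_le one_lt_aleph0 hκ.aleph0_le)
    (fun _ => i)
  exact ⟨β, hβ ()⟩

theorem exists_ub_set (hκ : κ.IsRegular) (S : Set κ.ord.ToType) (hS : #S < κ) :
    ∃ i, ∀ j ∈ S, j < i := by
  obtain ⟨β, hβ⟩ := exists_ub hκ hS (fun j => j.1)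
  exact ⟨β, fun j hj => hβ ⟨j, hj⟩⟩

theorem good_succ (hκ : κ.IsRegular) (ζ : Ordinal.{0}) : Good κ (ζ + 1) (fun _ => ζ) where
  le _ := (lt_add_one ζ).le
  ne := by
    have := nonempty_of hκ
    exact ⟨Classical.arbitrary _, lt_add_one ζ⟩
  nomax m _ := by
    obtain ⟨j, hj⟩ := exists_gt hκ m
    exact ⟨j, hj, lt_add_one ζ⟩
  small α hα := by
    have h1 : {j : κ.ord.ToType | ζ < α} = ∅ := by
      ext j
      simp only [mem_ofPred_eq, mem_empty_iff_false, iff_false, not_lt]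
      exact Order.lt_add_one_iff.1 hα
    rw [h1, mk_eq_zero]
    exact hκ.pos
  bd α _ S hS _ := by
    obtain ⟨i, hi⟩ := exists_ub_set hκ S hS
    exact ⟨i, lt_add_one ζ, fun j hj => (hi j hj).le⟩
  cof α hα := by
    have := nonempty_of hκ
    exact ⟨Classical.arbitrary _, Order.lt_add_one_iff.1 hα, lt_add_one ζ⟩
  suc h := absurd h (by
    rw [← Order.succ_eq_add_one]
    exact Order.not_isSuccLimit_succ ζ)
  few h := absurd h (by
    rw [← Order.succ_eq_add_one]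
    exact Order.not_isSuccLimit_succ ζ)
  eqs ζ' h _ := by
    rw [← Order.succ_eq_add_one, ← Order.succ_eq_add_one] at h
    exact Order.succ_injective h

theorem exists_good_lim {η : Ordinal.{0}} (hη : Order.IsSuccLimit η) (hcof : η.cof ≤ κ) :
    ∃ g, Good κ η g := by
  classical
  obtain ⟨f, hf⟩ := exists_isFundamentalSeq (o := η) rfl
  have hale : ℵ₀ ≤ η.cof := Ordinal.aleph0_le_cof_iff.2 (Ordinal.one_lt_cof_iff.2 hη)
  have halim : Order.IsSuccLimit η.cof.ord := isSuccLimit_ord hale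
  have haκ : η.cof.ord ≤ κ.ord := ord_le_ord.2 hcof
  let g : κ.ord.ToType → Ordinal.{0} := fun j =>
    if h : (ToType.toOrd j).1 < η.cof.ord then (f ⟨(ToType.toOrd j).1, h⟩).1 + 1 else η
  have hg1 : ∀ j (h : (ToType.toOrd j).1 < η.cof.ord), g j = (f ⟨(ToType.toOrd j).1, h⟩).1 + 1 :=
    fun j h => dif_pos h
  have hg2 : ∀ j, ¬ (ToType.toOrd j).1 < η.cof.ord → g j = η := fun j h => dif_neg h
  have hlt : ∀ j (h : (ToType.toOrd j).1 < η.cof.ord), g j < η := by
    intro j h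
    rw [hg1 j h]
    exact hη.add_one_lt (f ⟨_, h⟩).2
  have hval : ∀ j, g j < η → (ToType.toOrd j).1 < η.cof.ord := by
    intro j h
    by_contra hc
    rw [hg2 j hc] at h
    exact lt_irrefl _ h
  have hmk : ∀ b : Ordinal.{0}, b < η.cof.ord → ∃ j : κ.ord.ToType, (ToType.toOrd j).1 = b := by
    intro b hb
    refine ⟨ToType.mk ⟨b, hb.trans_le haκ⟩, ?_⟩
    simp [ToType.toOrd]
  have hmono : ∀ i j : κ.ord.ToType, i < j → (ToType.toOrd i).1 < (ToType.toOrd j).1 := by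
    intro i j hij
    have : ToType.toOrd i < ToType.toOrd j := by
      simpa [ToType.toOrd] using hij
    exact this
  have hmono' : ∀ i j : κ.ord.ToType, (ToType.toOrd i).1 < (ToType.toOrd j).1 → i < j := by
    intro i j hij
    have h1 : ToType.toOrd i < ToType.toOrd j := hij
    simpa [ToType.toOrd] using h1
  have hcofi : ∀ α < η, ∃ j, (ToType.toOrd j).1 < η.cof.ord ∧ α < g j ∧ g j < η := by
    intro α hα
    obtain ⟨_, ⟨c, rfl⟩, hc⟩ := hf.isCofinal_range ⟨α, hα⟩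
    obtain ⟨j, hj⟩ := hmk c.1 c.2
    have hj' : (ToType.toOrd j).1 < η.cof.ord := by rw [hj]; exact c.2
    refine ⟨j, hj', ?_, hlt j hj'⟩
    rw [hg1 j hj']
    have h2 : (⟨(ToType.toOrd j).1, hj'⟩ : Iio η.cof.ord) = c := Subtype.ext hj
    rw [h2]
    exact lt_of_le_of_lt hc (lt_add_one _)
  have hbig : ∀ α < η, ∃ m, (ToType.toOrd m).1 < η.cof.ord ∧ ∀ j, m ≤ j → α < g j := by
    intro α hα
    obtain ⟨m, hm, h1, h2⟩ := hcofi α hα
    refine ⟨m, hm, fun j hj => ?_⟩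
    rcases eq_or_lt_of_le hj with rfl | hj
    · exact h1
    by_cases h3 : (ToType.toOrd j).1 < η.cof.ord
    · refine h1.trans_le ?_
      rw [hg1 j h3, hg1 m hm]
      have h4 : f ⟨_, hm⟩ < f ⟨_, h3⟩ := hf.strictMono (hmono m j hj)
      have h5 : (f ⟨_, hm⟩).1 < (f ⟨_, h3⟩).1 := h4
      exact add_le_add_left h5.le 1
    · rw [hg2 j h3]
      exact hα
  refine ⟨g, ?_, ?_, ?_, ?_, ?_, ?_, ?_, ?_, ?_⟩
  · intro j
    by_cases h3 : (ToType.toOrd j).1 < η.cof.ord
    · exact (hlt j h3).le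
    · exact (hg2 j h3).le
  · obtain ⟨j, hj⟩ := hmk 0 (lt_of_le_of_ne (zero_le) (by
      intro h
      rw [← h] at halim
      exact not_isSuccLimit_zero halim))
    exact ⟨j, hlt j (by rw [hj]; exact lt_of_le_of_ne (zero_le) (by
      intro h
      rw [← h] at halim
      exact not_isSuccLimit_zero halim))⟩
  · intro m hm
    have h1 := hval m hm
    obtain ⟨j, hj⟩ := hmk ((ToType.toOrd m).1 + 1) (halim.add_one_lt h1)
    refine ⟨j, hmono' m j ?_, hlt j ?_⟩
    · rw [hj]; exact lt_add_one _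
    · rw [hj]; exact halim.add_one_lt h1
  · intro α hα
    obtain ⟨m, -, hm⟩ := hbig α hα
    refine small_of_bd _ m fun j hj => ?_
    by_contra hc
    exact absurd (hm j (not_lt.1 hc)) (not_lt.2 (le_of_lt hj))
  · intro α hα S _ hS
    obtain ⟨m, hm0, hm⟩ := hbig α hα
    refine ⟨m, hlt m hm0, fun j hj => ?_⟩
    by_contra hc
    exact absurd (hm j (not_le.1 hc).le) (not_lt.2 (hS j hj).2)
  · intro α hα
    obtain ⟨j, -, h1, h2⟩ := hcofi α hα
    exact ⟨j, h1.le, h2⟩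
  · intro _ j hj
    have := hval j hj
    exact ⟨_, hg1 j this⟩
  · intro _ hlt'
    have h1 : η.cof.ord < κ.ord := ord_lt_ord.2 hlt'
    refine small_of_bd _ (ToType.mk ⟨η.cof.ord, h1⟩) fun j hj => ?_
    refine hmono' _ _ ?_
    have := hval j hj
    simpa [ToType.toOrd] using this
  · rintro ζ rfl
    exact absurd hη (by
      rw [← Order.succ_eq_add_one]
      exact Order.not_isSuccLimit_succ ζ)

theorem exists_good (hκ : κ.IsRegular) {η : Ordinal.{0}} (h0 : 0 < η)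
    (hη : η < (Order.succ κ).ord) : ∃ g, Good κ η g := by
  rcases zero_or_succ_or_isSuccLimit η with h | ⟨ζ, rfl⟩ | h
  · exact absurd h h0.ne'
  · exact ⟨_, good_succ hκ ζ⟩
  · refine exists_good_lim h ?_
    refine (cof_le_card η).trans ?_
    exact Order.lt_succ_iff.1 (lt_ord.1 hη)

end Pool.Agent.W2helper54.GB
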