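import Mathlib
import Pool.Agent.W2helper54.GB.Ranks

set_option autoImplicit false

/-!
# Conditions: small pieces of labelled trees
-/

namespace Pool.Agent.W2helper54.GB

open Cardinal Set Ordinal Pool.Agent.R590.Kur Pool.Agent.R590.Brl

variable {κ : Cardinal.{0}}

/-- The data of the construction. -/
structure Sys (κ : Cardinal.{0}) where
  reg : κ.IsRegular
  unc : ℵ₀ < κ
  ξ : Ordinal.{0}
  lim : Order.IsSuccLimit ξ
  hcof : ξ.cof < κ
  r : Ordinal.{0} → κ.ord.ToType → Ordinal.{0}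
  r0 : ∀ j, r 0 j = 0
  good : ∀ η, 0 < η → η ≤ ξ → Good κ η (r η)
  e : List κ.ord.ToType → κ.ord.ToType
  inj : Function.Injective e
  b0 : κ.ord.ToType
  b1 : κ.ord.ToType
  hb : b0 ≠ b1

variable (𝔖 : Sys κ)

/-- The rank of a node. -/
def rk : List κ.ord.ToType → Ordinal.{0}
  | [] => 𝔖.ξ
  | j :: t => 𝔖.r (rk t) j

theorem rk_nil : rk 𝔖 [] = 𝔖.ξ := rfl

theorem rk_cons (j : κ.ord.ToType) (t : List κ.ord.ToType) : rk 𝔖 (j :: t) = 𝔖.r (rk 𝔖 t) j := rfl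

theorem rk_le (t : List κ.ord.ToType) : rk 𝔖 t ≤ 𝔖.ξ := by
  induction t with
  | nil => exact le_rfl
  | cons j t ih =>
    rw [rk_cons]
    rcases eq_or_ne (rk 𝔖 t) 0 with h | h
    · rw [h, 𝔖.r0]
      exact zero_le
    · exact ((𝔖.good _ (pos_iff_ne_zero.2 h) ih).le j).trans ih

theorem good_rk {t : List κ.ord.ToType} (h : 0 < rk 𝔖 t) : Good κ (rk 𝔖 t) (𝔖.r (rk 𝔖 t)) :=
  𝔖.good _ h (rk_le 𝔖 t)

/-- Total labellings with moduli of convergence. -/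
structure Tot where
  v : List κ.ord.ToType → Bool
  m : List κ.ord.ToType → κ.ord.ToType
  hm : ∀ t, 0 < rk 𝔖 t → rk 𝔖 (m t :: t) < rk 𝔖 t
  hK : ∀ t j, rk 𝔖 (j :: t) < rk 𝔖 t → m t < j → v (j :: t) = v t

open Classical in
/-- inherited values -/
noncomputable def inh (S : Set (List κ.ord.ToType)) (v0 : List κ.ord.ToType → Bool) :
    List κ.ord.ToType → Bool
  | [] => if [] ∈ S then v0 [] else false
  | j :: t => if j :: t ∈ S then v0 (j :: t) else inh S v0 t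

theorem inh_mem {S : Set (List κ.ord.ToType)} {v0 : List κ.ord.ToType → Bool}
    {t : List κ.ord.ToType} (h : t ∈ S) : inh S v0 t = v0 t := by
  cases t with
  | nil => exact if_pos h
  | cons j t => exact if_pos h

theorem inh_cons {S : Set (List κ.ord.ToType)} {v0 : List κ.ord.ToType → Bool}
    {j : κ.ord.ToType} {t : List κ.ord.ToType} (h : j :: t ∉ S) :
    inh S v0 (j :: t) = inh S v0 t := if_neg h

variable {𝔖}

theorem exists_tot (S : Set (List κ.ord.ToType)) (v0 : List κ.ord.ToType → Bool)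
    (m0 : List κ.ord.ToType → κ.ord.ToType)
    (h1 : ∀ t ∈ S, 0 < rk 𝔖 t → rk 𝔖 (m0 t :: t) < rk 𝔖 t)
    (h2 : ∀ t ∈ S, ∀ j, j :: t ∈ S → rk 𝔖 (j :: t) < rk 𝔖 t → m0 t < j → v0 (j :: t) = v0 t)
    (h3 : ∀ t, t ∉ S → 0 < rk 𝔖 t → ∃ m, rk 𝔖 (m :: t) < rk 𝔖 t ∧
      ∀ j, j :: t ∈ S → rk 𝔖 (j :: t) < rk 𝔖 t → j ≤ m) :
    ∃ z : Tot 𝔖, ∀ t ∈ S, z.v t = v0 t ∧ z.m t = m0 t := by
  classical
  have hK : Nonempty κ.ord.ToType := ⟨𝔖.b0⟩
  choose! g hg1 hg2 using h3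
  let m : List κ.ord.ToType → κ.ord.ToType := fun t => if t ∈ S then m0 t else g t
  have hm1 : ∀ t ∈ S, m t = m0 t := fun t ht => if_pos ht
  have hm2 : ∀ t, t ∉ S → m t = g t := fun t ht => if_neg ht
  refine ⟨⟨inh S v0, m, ?_, ?_⟩, fun t ht => ⟨inh_mem ht, hm1 t ht⟩⟩
  · intro t ht
    by_cases h : t ∈ S
    · rw [hm1 t h]
      exact h1 t h ht
    · rw [hm2 t h]
      exact hg1 t h ht
  · intro t j hj hlt
    by_cases h : j :: t ∈ S
    · by_cases h' : t ∈ S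
      · rw [inh_mem h, inh_mem h']
        rw [hm1 t h'] at hlt
        exact h2 t h' j h hj hlt
      · rw [hm2 t h'] at hlt
        exact absurd (hg2 t h' (lt_of_le_of_lt (zero_le) hj) j h hj) (not_le.2 hlt)
    · exact inh_cons h

variable (𝔖)

/-- Conditions. -/
structure Cond where
  S : Set (List κ.ord.ToType)
  small : #S < κ
  par : ∀ t j, j :: t ∈ S → rk 𝔖 (j :: t) < rk 𝔖 t → t ∈ S
  z : Tot 𝔖

variable {𝔖}

/-- `q` extends `p` -/
def Le (q p : Cond 𝔖) : Prop := ∀ t ∈ p.S, t ∈ q.S ∧ q.z.v t = p.z.v t ∧ q.z.m t = p.z.m t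

/-- `q` extends the restriction of `p` to the nodes of rank at most `α` -/
def LeA (α : Ordinal.{0}) (q p : Cond 𝔖) : Prop :=
  ∀ t ∈ p.S, rk 𝔖 t ≤ α → t ∈ q.S ∧ q.z.v t = p.z.v t ∧ q.z.m t = p.z.m t

/-- the total labelling `z` extends `p` -/
def Sub (p : Cond 𝔖) (z : Tot 𝔖) : Prop := ∀ t ∈ p.S, z.v t = p.z.v t ∧ z.m t = p.z.m t

theorem Le.refl (p : Cond 𝔖) : Le p p := fun _ h => ⟨h, rfl, rfl⟩

theorem Le.trans {p q r : Cond 𝔖} (h1 : Le r q) (h2 : Le q p) : Le r p := fun t ht => by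
  obtain ⟨a, b, c⟩ := h2 t ht
  obtain ⟨a', b', c'⟩ := h1 t a
  exact ⟨a', b'.trans b, c'.trans c⟩

theorem LeA.trans {α : Ordinal.{0}} {p q r : Cond 𝔖} (h1 : LeA α r q) (h2 : LeA α q p) :
    LeA α r p := fun t ht hr => by
  obtain ⟨a, b, c⟩ := h2 t ht hr
  obtain ⟨a', b', c'⟩ := h1 t a hr
  exact ⟨a', b'.trans b, c'.trans c⟩

theorem LeA.mono {α β : Ordinal.{0}} {p q : Cond 𝔖} (h : LeA α q p) (hβ : β ≤ α) : LeA β q p :=
  fun t ht hr => h t ht (hr.trans hβ)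

theorem Le.leA {p q : Cond 𝔖} (h : Le q p) (α : Ordinal.{0}) : LeA α q p := fun t ht _ => h t ht

theorem Sub.le {p q : Cond 𝔖} {z : Tot 𝔖} (h : Sub q z) (h2 : Le q p) : Sub p z := fun t ht => by
  obtain ⟨a, b, c⟩ := h2 t ht
  obtain ⟨b', c'⟩ := h t a
  exact ⟨b'.trans b, c'.trans c⟩

theorem sub_self (p : Cond 𝔖) : Sub p p.z := fun _ _ => ⟨rfl, rfl⟩

/-- two conditions below the same total labelling have a common extension -/
theorem Sub.common {p q : Cond 𝔖} {z : Tot 𝔖} (hp : Sub p z) (hq : Sub q z) :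
    ∃ r : Cond 𝔖, Sub r z ∧ Le r p ∧ Le r q := by
  refine ⟨⟨p.S ∪ q.S, ?_, ?_, z⟩, fun _ _ => ⟨rfl, rfl⟩, fun t ht => ⟨Or.inl ht, hp t ht⟩,
    fun t ht => ⟨Or.inr ht, hq t ht⟩⟩
  · exact (mk_union_le _ _).trans_lt (add_lt_of_lt 𝔖.reg.aleph0_le p.small q.small)
  · rintro t j (h | h) hj
    · exact Or.inl (p.par t j h hj)
    · exact Or.inr (q.par t j h hj)

/-- coherent families of conditions -/
theorem exists_tot_of_coh {ι : Type} (c : ι → Cond 𝔖)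
    (hc : ∀ i k, ∀ t ∈ (c i).S, t ∈ (c k).S →
      (c i).z.v t = (c k).z.v t ∧ (c i).z.m t = (c k).z.m t) :
    ∃ z : Tot 𝔖, ∀ i, Sub (c i) z := by
  classical
  rcases isEmpty_or_nonempty ι with h | hne
  · have h3 : ∀ t, 0 < rk 𝔖 t → ∃ m, rk 𝔖 (m :: t) < rk 𝔖 t := fun t ht => (good_rk 𝔖 ht).ne
    obtain ⟨z, -⟩ := exists_tot (𝔖 := 𝔖) ∅ (fun _ => false) (fun _ => 𝔖.b0) (by simp) (by simp)
      (fun t _ ht => by
        obtain ⟨m, hm⟩ := h3 t ht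
        exact ⟨m, hm, by simp⟩)
    exact ⟨z, fun i => h.elim i⟩
  · let S : Set (List κ.ord.ToType) := ⋃ i, (c i).S
    have hS : ∀ t ∈ S, ∃ i, t ∈ (c i).S := fun t ht => mem_iUnion.1 ht
    choose! f hf using hS
    let v0 : List κ.ord.ToType → Bool := fun t => (c (f t)).z.v t
    let m0 : List κ.ord.ToType → κ.ord.ToType := fun t => (c (f t)).z.m t
    have hv : ∀ i, ∀ t ∈ (c i).S, v0 t = (c i).z.v t ∧ m0 t = (c i).z.m t := fun i t ht =>
      hc (f t) i t (hf t (mem_iUnion.2 ⟨i, ht⟩)) ht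
    have key : ∃ z : Tot 𝔖, ∀ t ∈ S, z.v t = v0 t ∧ z.m t = m0 t := by
      refine exists_tot (𝔖 := 𝔖) S v0 m0 ?_ ?_ ?_
      · intro t ht h0
        exact (c (f t)).z.hm t h0
      · intro t ht j hj hr hlt
        obtain ⟨i, hi⟩ := mem_iUnion.1 hj
        have hti := (c i).par t j hi hr
        rw [(hv i _ hi).1, (hv i _ hti).1]
        rw [(hv i _ hti).2] at hlt
        exact (c i).z.hK t j hr hlt
      · intro t ht h0
        obtain ⟨m, hm⟩ := (good_rk 𝔖 h0).ne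
        refine ⟨m, hm, fun j hj hr => ?_⟩
        obtain ⟨i, hi⟩ := mem_iUnion.1 hj
        exact absurd (mem_iUnion.2 ⟨i, (c i).par t j hi hr⟩) ht
    obtain ⟨z, hz⟩ := key
    refine ⟨z, fun i t ht => ?_⟩
    obtain ⟨a, b⟩ := hz t (mem_iUnion.2 ⟨i, ht⟩)
    obtain ⟨a', b'⟩ := hv i t ht
    exact ⟨a.trans a', b.trans b'⟩

/-- lower bounds of short coherent families -/
theorem exists_lb {ι : Type} (hι : #ι < κ) (c : ι → Cond 𝔖)
    (hc : ∀ i k, ∀ t ∈ (c i).S, t ∈ (c k).S →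
      (c i).z.v t = (c k).z.v t ∧ (c i).z.m t = (c k).z.m t) :
    ∃ p : Cond 𝔖, ∀ i, Le p (c i) := by
  obtain ⟨z, hz⟩ := exists_tot_of_coh c hc
  refine ⟨⟨⋃ i, (c i).S, ?_, ?_, z⟩, fun i t ht => ⟨mem_iUnion.2 ⟨i, ht⟩, hz i t ht⟩⟩
  · exact (card_iUnion_lt_iff_forall_of_isRegular 𝔖.reg hι).2 fun i => (c i).small
  · intro t j h hj
    obtain ⟨i, hi⟩ := mem_iUnion.1 h
    exact mem_iUnion.2 ⟨i, (c i).par t j hi hj⟩

theorem coh_of_chain {ι : Type} {c : ι → Cond 𝔖} (h : ∀ i k, Le (c i) (c k) ∨ Le (c k) (c i)) :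
    ∀ i k, ∀ t ∈ (c i).S, t ∈ (c k).S →
      (c i).z.v t = (c k).z.v t ∧ (c i).z.m t = (c k).z.m t := by
  intro i k t hi hk
  rcases h i k with h | h
  · exact (h t hk).2
  · obtain ⟨-, a, b⟩ := h t hi
    exact ⟨a.symm, b.symm⟩

/-- `p` is closed at level `α`. -/
def Cl (α : Ordinal.{0}) (p : Cond 𝔖) : Prop :=
  ∀ t ∈ p.S, α < rk 𝔖 t → ∀ j, rk 𝔖 (j :: t) < α → p.z.m t < j → j :: t ∈ p.S

theorem exists_cl (α : Ordinal.{0}) (p : Cond 𝔖) : ∃ q, Le q p ∧ Cl α q := by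
  let N : Set (List κ.ord.ToType) := ⋃ t ∈ p.S,
    {u | α < rk 𝔖 t ∧ ∃ j, rk 𝔖 (j :: t) < α ∧ u = j :: t}
  have hN : #N < κ := by
    refine (card_biUnion_lt_iff_forall_of_isRegular 𝔖.reg p.small).2 fun t ht => ?_
    by_cases h : α < rk 𝔖 t
    · have h0 : 0 < rk 𝔖 t := lt_of_le_of_lt (zero_le) h
      have h1 := (good_rk 𝔖 h0).small α h
      refine lt_of_le_of_lt ?_ h1
      refine le_trans (mk_le_mk_of_subset (t := (fun j => j :: t) '' {j | 𝔖.r (rk 𝔖 t) j < α}) ?_)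
        mk_image_le
      rintro u ⟨-, j, hj, rfl⟩
      exact ⟨j, hj, rfl⟩
    · have h2 : {u : List κ.ord.ToType | α < rk 𝔖 t ∧ ∃ j, rk 𝔖 (j :: t) < α ∧ u = j :: t} = ∅ := by
        ext u
        simp [h]
      rw [h2, mk_eq_zero]
      exact 𝔖.reg.pos
  refine ⟨⟨p.S ∪ N, (mk_union_le _ _).trans_lt (add_lt_of_lt 𝔖.reg.aleph0_le p.small hN), ?_, p.z⟩,
    fun t ht => ⟨Or.inl ht, rfl, rfl⟩, ?_⟩
  · rintro t j (h | h) hj
    · exact Or.inl (p.par t j h hj)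
    · simp only [N, mem_iUnion, mem_ofPred_eq, exists_prop] at h
      obtain ⟨t', ht', -, j', -, he⟩ := h
      rw [List.cons.injEq] at he
      rw [he.2]
      exact Or.inl ht'
  · rintro t (ht | ht) hα j hj hm
    · refine Or.inr ?_
      simp only [N, mem_iUnion, mem_ofPred_eq, exists_prop]
      exact ⟨t, ht, hα, j, hj, rfl⟩
    · exfalso
      simp only [N, mem_iUnion, mem_ofPred_eq, exists_prop] at ht
      obtain ⟨t', ht', -, j', h1, he⟩ := ht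
      rw [← he] at h1
      exact lt_asymm h1 hα

/-- adding a small set of nodes -/
theorem exists_add (z : Tot 𝔖) (N : Set (List κ.ord.ToType)) (hN : #N < κ) :
    ∃ p : Cond 𝔖, Sub p z ∧ N ⊆ p.S ∧ p.z = z := by
  let S : Set (List κ.ord.ToType) := ⋃ t ∈ N, {s | s ∈ t.tails}
  have hS : #S < κ := by
    refine (card_biUnion_lt_iff_forall_of_isRegular 𝔖.reg hN).2 fun t ht => ?_
    have : ({s | s ∈ t.tails} : Set (List κ.ord.ToType)).Finite := List.finite_toSet _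
    exact (lt_aleph0_iff_finite.2 this).trans 𝔖.unc
  refine ⟨⟨S, hS, ?_, z⟩, fun _ _ => ⟨rfl, rfl⟩, ?_, rfl⟩
  · intro t j h _
    simp only [S, mem_iUnion, mem_ofPred_eq, exists_prop, List.mem_tails] at h ⊢
    obtain ⟨u, hu, hs⟩ := h
    exact ⟨u, hu, (List.suffix_cons j t).trans hs⟩
  · intro t ht
    simp only [S, mem_iUnion, mem_ofPred_eq, exists_prop, List.mem_tails]
    exact ⟨t, ht, List.suffix_rfl⟩

/-- The amalgamation lemma. -/
theorem amalg {p q : Cond 𝔖} {α α' : Ordinal.{0}} (hα : α' < α) (hcl : Cl α p)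
    (h : LeA α q p) : ∃ r, Le r p ∧ LeA α' r q := by
  classical
  let S' : Set (List κ.ord.ToType) := p.S ∪ {t | t ∈ q.S ∧ rk 𝔖 t ≤ α'}
  let v0 : List κ.ord.ToType → Bool := fun t => if t ∈ p.S then p.z.v t else q.z.v t
  let m0 : List κ.ord.ToType → κ.ord.ToType := fun t => if t ∈ p.S then p.z.m t else q.z.m t
  have hv1 : ∀ t ∈ p.S, v0 t = p.z.v t := fun t ht => if_pos ht
  have hv2 : ∀ t, t ∉ p.S → v0 t = q.z.v t := fun t ht => if_neg ht
  have hm1 : ∀ t ∈ p.S, m0 t = p.z.m t := fun t ht => if_pos ht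
  have hm2 : ∀ t, t ∉ p.S → m0 t = q.z.m t := fun t ht => if_neg ht
  have hq : ∀ t ∈ q.S, rk 𝔖 t ≤ α' → v0 t = q.z.v t ∧ m0 t = q.z.m t := by
    intro t ht hr
    by_cases h1 : t ∈ p.S
    · obtain ⟨-, a, b⟩ := h t h1 (hr.trans hα.le)
      rw [hv1 t h1, hm1 t h1]
      exact ⟨a.symm, b.symm⟩
    · exact ⟨hv2 t h1, hm2 t h1⟩
  have key : ∃ z : Tot 𝔖, ∀ t ∈ S', z.v t = v0 t ∧ z.m t = m0 t := by
    refine exists_tot (𝔖 := 𝔖) S' v0 m0 ?_ ?_ ?_
    · rintro t (ht | ⟨ht, hr⟩) h0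
      · rw [hm1 t ht]
        exact p.z.hm t h0
      · rw [(hq t ht hr).2]
        exact q.z.hm t h0
    · rintro t ht j hj hr hlt
      by_cases htp : t ∈ p.S
      · rw [hv1 t htp]
        rw [hm1 t htp] at hlt
        by_cases hjp : j :: t ∈ p.S
        · rw [hv1 _ hjp]
          exact p.z.hK t j hr hlt
        · rcases hj with hj | ⟨hj, hjr⟩
          · exact absurd hj hjp
          · rw [hv2 _ hjp]
            by_cases hα2 : rk 𝔖 t ≤ α
            · obtain ⟨-, a, b⟩ := h t htp hα2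
              rw [← a]
              rw [← b] at hlt
              exact q.z.hK t j hr hlt
            · exact absurd (hcl t htp (not_le.1 hα2) j (hjr.trans_lt hα) hlt) hjp
      · rcases ht with ht | ⟨ht, htr⟩
        · exact absurd ht htp
        · have hjp : j :: t ∉ p.S := fun hh => htp (p.par t j hh hr)
          rw [hv2 _ hjp, hv2 _ htp]
          rw [hm2 _ htp] at hlt
          exact q.z.hK t j hr hlt
    · intro t ht h0
      have htp : t ∉ p.S := fun hh => ht (Or.inl hh)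
      have hchild : ∀ j, j :: t ∈ S' → rk 𝔖 (j :: t) < rk 𝔖 t →
          j :: t ∈ q.S ∧ rk 𝔖 (j :: t) ≤ α' ∧ α' < rk 𝔖 t := by
        rintro j (hj | ⟨hj, hjr⟩) hr
        · exact absurd (p.par t j hj hr) htp
        · refine ⟨hj, hjr, ?_⟩
          by_contra hc
          exact ht (Or.inr ⟨q.par t j hj hr, not_lt.1 hc⟩)
      by_cases hα2 : α' < rk 𝔖 t
      · obtain ⟨m, hm1, hm2⟩ := (good_rk 𝔖 h0).bd α' hα2
          {j | j :: t ∈ q.S ∧ rk 𝔖 (j :: t) ≤ α' ∧ rk 𝔖 (j :: t) < rk 𝔖 t} (by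
            refine lt_of_le_of_lt ?_ q.small
            refine mk_le_of_injective (f := fun j => ⟨j.1 :: t, j.2.1⟩) ?_
            intro a b hab
            have h1 := congrArg Subtype.val hab
            simp only [List.cons.injEq, and_true] at h1
            exact Subtype.ext h1) (fun j hj => ⟨hj.2.2, hj.2.1⟩)
        refine ⟨m, hm1, fun j hj hr => ?_⟩
        obtain ⟨a, b, c⟩ := hchild j hj hr
        exact hm2 j ⟨a, b, hr⟩
      · obtain ⟨m, hm⟩ := (good_rk 𝔖 h0).ne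
        refine ⟨m, hm, fun j hj hr => ?_⟩
        exact absurd (hchild j hj hr).2.2 hα2
  obtain ⟨z, hz⟩ := key
  refine ⟨⟨p.S ∪ q.S, ?_, ?_, z⟩, fun t ht => ⟨Or.inl ht, ?_⟩, fun t ht hr => ⟨Or.inr ht, ?_⟩⟩
  · exact (mk_union_le _ _).trans_lt (add_lt_of_lt 𝔖.reg.aleph0_le p.small q.small)
  · rintro t j (h | h) hj
    · exact Or.inl (p.par t j h hj)
    · exact Or.inr (q.par t j h hj)
  · obtain ⟨a, b⟩ := hz t (Or.inl ht)
    rw [hv1 t ht] at a
    rw [hm1 t ht] at b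
    exact ⟨a, b⟩
  · obtain ⟨a, b⟩ := hz t (Or.inr ⟨ht, hr⟩)
    obtain ⟨a', b'⟩ := hq t ht hr
    exact ⟨a.trans a', b.trans b'⟩

end Pool.Agent.W2helper54.GB
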