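import Mathlib
import Pool.Agent.W2helper54.GB.Cond

set_option autoImplicit false

/-!
# Generic sequences, codes of Borel sets, and the rank lemma
-/

namespace Pool.Agent.W2helper54.GB

open Cardinal Set Ordinal Pool.Agent.R590.Kur Pool.Agent.R590.Brl

variable {κ : Cardinal.{0}} {𝔖 : Sys κ}

/-- Decreasing sequences of conditions which meet given dense sets. -/
theorem exists_seq (p0 : Cond 𝔖) (D : κ.ord.ToType → Set (Cond 𝔖))
    (hD : ∀ i, ∀ p, Le p p0 → ∃ q, Le q p ∧ q ∈ D i) :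
    ∃ s : κ.ord.ToType → Cond 𝔖, (∀ i, Le (s i) p0) ∧ (∀ i j, i < j → Le (s j) (s i)) ∧
      ∀ i, s i ∈ D i := by
  classical
  let step : (i : κ.ord.ToType) → ((j : κ.ord.ToType) → j < i → Cond 𝔖) → Cond 𝔖 := fun i prev =>
    if h : ∃ q, Le q p0 ∧ (∀ j (hj : j < i), Le q (prev j hj)) ∧ q ∈ D i then h.choose else p0
  let s : κ.ord.ToType → Cond 𝔖 := (wellFounded_lt (α := κ.ord.ToType)).fix step
  have hs : ∀ i, s i = step i (fun j _ => s j) := fun i =>
    (wellFounded_lt (α := κ.ord.ToType)).fix_eq step i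
  have key : ∀ i, Le (s i) p0 ∧ (∀ j, j < i → Le (s i) (s j)) ∧ s i ∈ D i := by
    intro i
    induction i using (wellFounded_lt (α := κ.ord.ToType)).induction with
    | _ i ih =>
      have hex : ∃ q, Le q p0 ∧ (∀ j (_ : j < i), Le q (s j)) ∧ q ∈ D i := by
        let c : Option (Iio i) → Cond 𝔖 := fun o => o.elim p0 fun j => s j.1
        have hlin : ∀ a b, Le (c a) (c b) ∨ Le (c b) (c a) := by
          rintro (_ | a) (_ | b)
          · exact Or.inl (Le.refl _)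
          · exact Or.inr (ih b.1 b.2).1
          · exact Or.inl (ih a.1 a.2).1
          · rcases lt_trichotomy a.1 b.1 with h | h | h
            · exact Or.inr ((ih b.1 b.2).2.1 a.1 h)
            · have : a = b := Subtype.ext h
              rw [this]
              exact Or.inl (Le.refl _)
            · exact Or.inl ((ih a.1 a.2).2.1 b.1 h)
        have hcard : #(Option (Iio i)) < κ := by
          rw [mk_option]
          exact add_lt_of_lt 𝔖.reg.aleph0_le (mk_Iio_lt' i)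
            (lt_of_lt_of_le one_lt_aleph0 𝔖.reg.aleph0_le)
        obtain ⟨p, hp⟩ := exists_lb hcard c (coh_of_chain hlin)
        obtain ⟨q, hq, hqD⟩ := hD i p (hp none)
        exact ⟨q, hq.trans (hp none), fun j hj => hq.trans (hp (some ⟨j, hj⟩)), hqD⟩
      rw [hs i]
      have h2 : step i (fun j _ => s j) = hex.choose := dif_pos hex
      rw [h2]
      exact hex.choose_spec
  exact ⟨s, fun i => (key i).1, fun i j h => (key j).2.1 i h, fun i => (key i).2.2⟩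

/-- Generic total labellings. -/
theorem exists_gen (p0 : Cond 𝔖) (D : κ.ord.ToType → Set (Cond 𝔖))
    (hD : ∀ i, ∀ p, Le p p0 → ∃ q, Le q p ∧ q ∈ D i) :
    ∃ z : Tot 𝔖, Sub p0 z ∧ ∀ i, ∃ q, Le q p0 ∧ q ∈ D i ∧ Sub q z := by
  obtain ⟨s, h1, h2, h3⟩ := exists_seq p0 D hD
  have hlin : ∀ a b, Le (s a) (s b) ∨ Le (s b) (s a) := by
    intro a b
    rcases lt_trichotomy a b with h | h | h
    · exact Or.inr (h2 a b h)
    · rw [h]
      exact Or.inl (Le.refl _)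
    · exact Or.inl (h2 b a h)
  obtain ⟨z, hz⟩ := exists_tot_of_coh s (coh_of_chain hlin)
  exact ⟨z, (hz 𝔖.b0).le (h1 𝔖.b0), fun i => ⟨s i, h1 i, h3 i, hz i⟩⟩

/-! ### Points of the space -/

open Classical in
/-- The point of the generalized Baire space given by a total labelling. -/
noncomputable def pt (z : Tot 𝔖) : Sp κ := fun β =>
  if ∃ t, rk 𝔖 t = 0 ∧ 𝔖.e t = β ∧ z.v t = true then 𝔖.b1 else 𝔖.b0

theorem pt_leaf (z : Tot 𝔖) {t : List κ.ord.ToType} (ht : rk 𝔖 t = 0) :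
    pt z (𝔖.e t) = 𝔖.b1 ↔ z.v t = true := by
  constructor
  · intro h
    by_contra hc
    refine 𝔖.hb ?_
    rw [← h]
    refine (if_neg ?_).symm
    rintro ⟨t', -, h2, h3⟩
    rw [𝔖.inj h2] at h3
    exact hc h3
  · intro h
    exact if_pos ⟨t, ht, rfl, h⟩

theorem pt_agree {z z' : Tot 𝔖} {α : κ.ord.ToType}
    (h : ∀ t, rk 𝔖 t = 0 → 𝔖.e t < α → z.v t = z'.v t) : Agree (pt z) (pt z') α := by
  classical
  intro β hβ
  have h1 : (∃ t, rk 𝔖 t = 0 ∧ 𝔖.e t = β ∧ z.v t = true) ↔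
      ∃ t, rk 𝔖 t = 0 ∧ 𝔖.e t = β ∧ z'.v t = true := by
    constructor
    · rintro ⟨t, a, rfl, c⟩
      exact ⟨t, a, rfl, by rw [← h t a hβ]; exact c⟩
    · rintro ⟨t, a, rfl, c⟩
      exact ⟨t, a, rfl, by rw [h t a hβ]; exact c⟩
  show (if ∃ t, rk 𝔖 t = 0 ∧ 𝔖.e t = β ∧ z.v t = true then 𝔖.b1 else 𝔖.b0) =
    (if ∃ t, rk 𝔖 t = 0 ∧ 𝔖.e t = β ∧ z'.v t = true then 𝔖.b1 else 𝔖.b0)
  by_cases h2 : ∃ t, rk 𝔖 t = 0 ∧ 𝔖.e t = β ∧ z.v t = true
  · rw [if_pos h2, if_pos (h1.1 h2)]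
  · rw [if_neg h2, if_neg fun h3 => h2 (h1.2 h3)]

/-! ### Codes -/

/-- Codes of Borel sets: open sets, and unions of complements. -/
inductive Code (κ : Cardinal.{0}) : Type
  | opn (U : Set (Sp κ)) : Code κ
  | un (F : κ.ord.ToType → Code κ) : Code κ

/-- the set coded by a code -/
def val : Code κ → Set (Sp κ)
  | .opn U => U
  | .un F => ⋃ i, (val (F i))ᶜ

/-- the rank of a code -/
inductive Rk : Code κ → Ordinal.{0} → Prop
  | opn (U : Set (Sp κ)) (hU : IsOpen U) : Rk (.opn U) 1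
  | un (F : κ.ord.ToType → Code κ) (η : Ordinal.{0}) (ρ : κ.ord.ToType → Ordinal.{0})
      (h1 : ∀ i, 1 ≤ ρ i) (h2 : ∀ i, ρ i < η) (h3 : ∀ i, Rk (F i) (ρ i)) : Rk (.un F) η

/-- strong forcing -/
def fr : Code κ → Cond 𝔖 → Prop
  | .opn U => fun p => ∀ z : Tot 𝔖, (∀ t ∈ p.S, rk 𝔖 t = 0 → z.v t = p.z.v t) → pt z ∈ U
  | .un F => fun p => ∃ i, ∀ q, Le q p → ¬ fr (F i) q

/-- forcing of the complement -/
def nf (c : Code κ) (p : Cond 𝔖) : Prop := ∀ q, Le q p → ¬ fr c q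

theorem fr_un (F : κ.ord.ToType → Code κ) (p : Cond 𝔖) : fr (.un F) p ↔ ∃ i, nf (F i) p := Iff.rfl

theorem nf.mono {c : Code κ} {p q : Cond 𝔖} (h : nf c p) (hq : Le q p) : nf c q :=
  fun r hr => h r (hr.trans hq)

theorem fr_mono {c : Code κ} {p q : Cond 𝔖} (h : fr c p) (hq : Le q p) : fr c q := by
  cases c with
  | opn U =>
    intro z hz
    refine h z fun t ht h0 => ?_
    obtain ⟨a, b, -⟩ := hq t ht
    exact (hz t a h0).trans b
  | un F =>
    obtain ⟨i, hi⟩ := h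
    exact ⟨i, fun r hr => hi r (hr.trans hq)⟩

/-- `z` decides `c` -/
def Met (z : Tot 𝔖) (c : Code κ) : Prop := ∃ p : Cond 𝔖, Sub p z ∧ (fr c p ∨ nf c p)

/-- the proper subcodes -/
def subs : Code κ → Set (Code κ)
  | .opn _ => ∅
  | .un F => ⋃ i, insert (F i) (subs (F i))

theorem mk_subs (hκ : κ.IsRegular) (c : Code κ) : #(subs c) ≤ κ := by
  induction c with
  | opn U =>
    show #(∅ : Set (Code κ)) ≤ κ
    rw [mk_eq_zero]
    exact zero_le
  | un F ih =>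
    show #(⋃ i, insert (F i) (subs (F i)) : Set (Code κ)) ≤ κ
    refine (mk_iUnion_le _).trans ?_
    have h1 : ∀ i, #(insert (F i) (subs (F i)) : Set (Code κ)) ≤ κ := fun i =>
      mk_insert_le.trans ((add_le_add (ih i) (one_le_aleph0.trans hκ.aleph0_le)).trans
        (add_eq_self hκ.aleph0_le).le)
    calc #(κ.ord.ToType) * (⨆ i, #(insert (F i) (subs (F i)) : Set (Code κ))) ≤ κ * κ :=
          mul_le_mul' (mk_ord_toType κ).le (ciSup_le' h1)
      _ = κ := mul_eq_self hκ.aleph0_le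

theorem dense_met (c : Code κ) (p : Cond 𝔖) : ∃ q, Le q p ∧ (fr c q ∨ nf c q) := by
  by_cases h : ∃ q, Le q p ∧ fr c q
  · obtain ⟨q, h1, h2⟩ := h
    exact ⟨q, h1, Or.inl h2⟩
  · exact ⟨p, Le.refl p, Or.inr fun q hq hf => h ⟨q, hq, hf⟩⟩

/-- The truth lemma. -/
theorem truth {z : Tot 𝔖} {c : Code κ} {η : Ordinal.{0}} (hc : Rk c η)
    (hg : ∀ c' ∈ subs c, Met z c') : pt z ∈ val c ↔ ∃ p : Cond 𝔖, Sub p z ∧ fr c p := by
  have hne : Nonempty κ.ord.ToType := ⟨𝔖.b0⟩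
  induction hc with
  | opn U hU =>
    constructor
    · intro h
      obtain ⟨α, hα⟩ := isOpen_iff.1 hU _ h
      obtain ⟨p, h1, h2, h3⟩ := exists_add z {t | rk 𝔖 t = 0 ∧ 𝔖.e t < α} (by
        refine lt_of_le_of_lt ?_ (mk_Iio_lt' α)
        refine mk_le_of_injective (f := fun t => (⟨𝔖.e t.1, t.2.2⟩ : Iio α)) ?_
        intro a b hab
        exact Subtype.ext (𝔖.inj (congrArg Subtype.val hab)))
      refine ⟨p, h1, fun z' hz' => hα _ (pt_agree fun t h0 hlt => ?_)⟩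
      have ht := h2 (show t ∈ {t | rk 𝔖 t = 0 ∧ 𝔖.e t < α} from ⟨h0, hlt⟩)
      rw [hz' t ht h0, ← (h1 t ht).1]
    · rintro ⟨p, h1, h2⟩
      exact h2 z fun t ht _ => (h1 t ht).1
  | un F η ρ h1 h2 h3 ih =>
    have ih' : ∀ i, pt z ∈ val (F i) ↔ ∃ p : Cond 𝔖, Sub p z ∧ fr (F i) p := fun i =>
      ih i fun c' hc' => hg c' (mem_iUnion.2 ⟨i, Or.inr hc'⟩)
    constructor
    · intro h
      obtain ⟨i, hi⟩ := mem_iUnion.1 h
      obtain ⟨p, hp, hp'⟩ := hg (F i) (mem_iUnion.2 ⟨i, Or.inl rfl⟩)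
      rcases hp' with hp' | hp'
      · exact absurd ((ih' i).2 ⟨p, hp, hp'⟩) hi
      · exact ⟨p, hp, i, hp'⟩
    · rintro ⟨p, hp, i, hi⟩
      refine mem_iUnion.2 ⟨i, fun hz => ?_⟩
      obtain ⟨q, hq, hq'⟩ := (ih' i).1 hz
      obtain ⟨r, -, hr1, hr2⟩ := hp.common hq
      exact hi r hr1 (fr_mono hq' hr2)

/-- The rank lemma. -/
theorem rank_lemma {c : Code κ} {η : Ordinal.{0}} (hc : Rk c η) :
    ∀ p : Cond 𝔖, Cl η p → nf c p → ∀ r, LeA η r p → nf c r := by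
  induction hc with
  | opn U hU =>
    intro p hcl hp r hr q hq hf
    obtain ⟨r', h1, h2⟩ := amalg (zero_lt_one) hcl ((hq.leA 1).trans hr)
    refine hp r' h1 fun z hz => hf z fun t ht h0 => ?_
    obtain ⟨a, b, -⟩ := h2 t ht h0.le
    exact (hz t a h0).trans b
  | un F η ρ h1 h2 h3 ih =>
    intro p hcl hp r hr q hq hf
    obtain ⟨i, hi⟩ := hf
    obtain ⟨q', hq', hcl'⟩ := exists_cl (ρ i) q
    have h4 : LeA η q' p := ((hq'.trans hq).leA η).trans hr
    obtain ⟨r', h5, h6⟩ := amalg (h2 i) hcl h4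
    exact hp r' h5 ⟨i, ih i q' hcl' (nf.mono (c := F i) hi hq') r' h6⟩

/-- Sets of the Borel hierarchy have codes. -/
theorem exists_code (hκ : κ.IsRegular) {η : Ordinal.{0}} {A : Set (Sp κ)} (h : Sig κ η A) :
    ∃ c : Code κ, val c = A ∧ Rk c η := by
  have hne : Nonempty κ.ord.ToType := nonempty_of hκ
  induction h with
  | opn A hA => exact ⟨.opn A, rfl, Rk.opn A hA⟩
  | union ξ hξ I hI F η h1 h2 h3 ih =>
    choose c hc1 hc2 using ih
    rcases isEmpty_or_nonempty I with hI' | hI'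
    · refine ⟨.un fun _ => .opn univ, ?_, Rk.un _ ξ (fun _ => 1) (fun _ => le_rfl) (fun _ => hξ)
        fun _ => Rk.opn _ isOpen_univ⟩
      show (⋃ _ : κ.ord.ToType, (univ : Set (Sp κ))ᶜ) = _
      simp
    · obtain ⟨g, hg⟩ : ∃ g : κ.ord.ToType → I, Function.Surjective g := by
        have h5 : #I ≤ #(κ.ord.ToType) := by rwa [mk_ord_toType]
        obtain ⟨f⟩ := h5
        exact ⟨Function.invFun f, Function.invFun_surjective f.injective⟩
      refine ⟨.un fun k => c (g k), ?_, Rk.un _ ξ (fun k => η (g k)) (fun k => h1 _)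
        (fun k => h2 _) fun k => hc2 _⟩
      show (⋃ k, (val (c (g k)))ᶜ) = _
      simp only [hc1, compl_compl]
      exact hg.iUnion_comp F

end Pool.Agent.W2helper54.GB
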