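import Mathlib
import Pool.Agent.R590.BrFin

set_option autoImplicit false

/-!
# Closure properties of the generalized Borel hierarchy
-/

namespace Pool.Agent.W2helper54.GB

open Cardinal Set Pool.Agent.R590.Kur Pool.Agent.R590.Brl

variable {κ : Cardinal.{0}} {X Z : Type} [TopologicalSpace X] [TopologicalSpace Z]

/-- open sets belong to all classes -/
def OpOK (κ : Cardinal.{0}) (X : Type) [TopologicalSpace X] : Prop :=
  ∀ U : Set X, IsOpen U → ∀ η : Ordinal.{0}, 1 < η → Sig κ η U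

theorem opOK_sub (hκ : κ.IsRegular) (h2 : (2 : Cardinal.{0}) ^< κ = κ) (X : Set (Sp κ)) :
    OpOK κ X := by
  intro U hU η hη
  rw [open_eq hκ hU]
  refine Sig.union η hη (Jn X U) (mk_Jn hκ h2 X U) _ (fun _ => 1) (fun _ => le_rfl) (fun _ => hη)
    fun s => Sig.opn _ ?_
  exact (clopen_pre hκ X s.2.1).compl.isOpen

theorem sig_preimage {g : Z → X} (hg : Continuous g) {η : Ordinal.{0}} {A : Set X}
    (h : Sig κ η A) : Sig κ η (g ⁻¹' A) := by
  induction h with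
  | opn A hA => exact Sig.opn _ (hA.preimage hg)
  | union ξ hξ I hI F η h1 h2 h3 ih =>
    rw [preimage_iUnion]
    exact Sig.union ξ hξ I hI _ η h1 h2 ih

theorem opOK_sp (hκ : κ.IsRegular) (h2 : (2 : Cardinal.{0}) ^< κ = κ) : OpOK κ (Sp κ) := by
  intro U hU η hη
  have h1 := opOK_sub hκ h2 univ ((↑) ⁻¹' U) (hU.preimage continuous_subtype_val) η hη
  have hg : Continuous (fun x : Sp κ => (⟨x, trivial⟩ : (univ : Set (Sp κ)))) :=
    continuous_id.subtype_mk _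
  exact sig_preimage hg h1

theorem sig_one {A : Set X} (h : Sig κ 1 A) : IsOpen A := by
  generalize he : (1 : Ordinal.{0}) = η at h
  cases h with
  | opn A hA => exact hA
  | union ξ hξ => exact absurd he hξ.ne

theorem sig_cases {ξ : Ordinal.{0}} {A : Set X} (h : Sig κ ξ A) (hξ : 1 < ξ) :
    ∃ (I : Type) (F : I → Set X) (η : I → Ordinal.{0}), #I ≤ κ ∧ (∀ i, 1 ≤ η i) ∧ (∀ i, η i < ξ) ∧
      (∀ i, Sig κ (η i) (F i)ᶜ) ∧ A = ⋃ i, F i := by
  cases h with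
  | opn A hA => exact absurd hξ (lt_irrefl _)
  | union ξ hξ I hI F η h1 h2 h3 => exact ⟨I, F, η, hI, h1, h2, h3, rfl⟩

theorem sig_mono (hO : OpOK κ X) {ξ η : Ordinal.{0}} {A : Set X} (h : Sig κ ξ A) (hle : ξ ≤ η) :
    Sig κ η A := by
  cases h with
  | opn A hA =>
    rcases eq_or_lt_of_le hle with rfl | h
    · exact Sig.opn A hA
    · exact hO A hA η h
  | union ξ hξ I hI F ρ h1 h2 h3 =>
    exact Sig.union η (hξ.trans_le hle) I hI F ρ h1 (fun i => (h2 i).trans_le hle) h3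

theorem sig_iUnion (hκ : κ.IsRegular) {ξ : Ordinal.{0}} (hξ : 1 ≤ ξ) {I : Type} (hI : #I ≤ κ)
    {F : I → Set X} (h : ∀ i, Sig κ ξ (F i)) : Sig κ ξ (⋃ i, F i) := by
  rcases eq_or_lt_of_le hξ with rfl | hξ
  · exact Sig.opn _ (isOpen_iUnion fun i => sig_one (h i))
  · have h' := fun i => sig_cases (h i) hξ
    choose J G η hJ h1 h2 h3 h4 using h'
    have h5 : (⋃ i, F i) = ⋃ p : (Σ i, J i), G p.1 p.2 := by
      rw [iUnion_sigma]
      exact iUnion_congr h4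
    rw [h5]
    refine Sig.union ξ hξ _ ?_ _ (fun p => η p.1 p.2) (fun p => h1 _ _) (fun p => h2 _ _)
      fun p => h3 _ _
    rw [mk_sigma]
    refine (Cardinal.sum_le_mk_mul_iSup _).trans ?_
    calc #I * (⨆ i : I, #(J i)) ≤ κ * κ := mul_le_mul' hI (ciSup_le' hJ)
      _ = κ := mul_eq_self hκ.aleph0_le

theorem sig_union (hκ : κ.IsRegular) {ξ : Ordinal.{0}} {A B : Set X} (hA : Sig κ ξ A)
    (hB : Sig κ ξ B) : Sig κ ξ (A ∪ B) := by
  rw [union_eq_iUnion]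
  refine sig_iUnion hκ hA.one_le ?_ fun b => ?_
  · exact (lt_aleph0_of_finite Bool).le.trans hκ.aleph0_le
  · cases b
    · exact hB
    · exact hA

theorem sig_inter (hκ : κ.IsRegular) (hO : OpOK κ X) {ξ : Ordinal.{0}} {A B : Set X}
    (hA : Sig κ ξ A) (hB : Sig κ ξ B) : Sig κ ξ (A ∩ B) := by
  rcases eq_or_lt_of_le hA.one_le with rfl | hξ
  · exact Sig.opn _ ((sig_one hA).inter (sig_one hB))
  · obtain ⟨I, F, η, hI, h1, h2, h3, rfl⟩ := sig_cases hA hξ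
    obtain ⟨J, G, ρ, hJ, k1, k2, k3, rfl⟩ := sig_cases hB hξ
    have h5 : ((⋃ i, F i) ∩ ⋃ j, G j) = ⋃ p : I × J, (F p.1 ∩ G p.2) := by
      ext x
      simp only [mem_inter_iff, mem_iUnion, Prod.exists]
      exact ⟨fun ⟨⟨i, hi⟩, ⟨j, hj⟩⟩ => ⟨i, j, hi, hj⟩, fun ⟨i, j, hi, hj⟩ => ⟨⟨i, hi⟩, ⟨j, hj⟩⟩⟩
    rw [h5]
    refine Sig.union ξ hξ _ ?_ _ (fun p => max (η p.1) (ρ p.2))
      (fun p => (h1 _).trans (le_max_left _ _)) (fun p => max_lt (h2 _) (k2 _)) fun p => ?_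
    · rw [mk_prod, lift_id, lift_id]
      exact (mul_le_mul' hI hJ).trans (mul_eq_self hκ.aleph0_le).le
    · rw [compl_inter]
      exact sig_union hκ (sig_mono hO (h3 _) (le_max_left _ _))
        (sig_mono hO (k3 _) (le_max_right _ _))

/-- intersections -/
theorem sig_iInter (hκ : κ.IsRegular) {η : Ordinal.{0}} (hη : 1 ≤ η) {I : Type} (hI : #I ≤ κ)
    {F : I → Set X} (h : ∀ i, Sig κ η (F i)ᶜ) : Sig κ η (⋂ i, F i)ᶜ ∧ Sig κ (η + 1) (⋂ i, F i) := by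
  have h1 : Sig κ η (⋂ i, F i)ᶜ := by
    rw [compl_iInter]
    exact sig_iUnion hκ hη hI h
  refine ⟨h1, ?_⟩
  have := h1.compl hκ
  rwa [compl_compl] at this

end Pool.Agent.W2helper54.GB
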