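import Mathlib
import Pool.Agent.W2helper54.GB.Forc
import Pool.Agent.W2helper54.GB.SigL

set_option autoImplicit false

/-!
# The sets attached to the nodes
-/

namespace Pool.Agent.W2helper54.GB

open Cardinal Set Ordinal Pool.Agent.R590.Kur Pool.Agent.R590.Brl

variable {κ : Cardinal.{0}} (𝔖 : Sys κ)

/-- `Tr t w`: the point `w` gives the node `t` the value `1`. -/
inductive Tr (w : Sp κ) : List κ.ord.ToType → Prop
  | leaf (t : List κ.ord.ToType) (h : rk 𝔖 t = 0) (hw : w (𝔖.e t) = 𝔖.b1) : Tr w t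
  | node (t : List κ.ord.ToType) (m : κ.ord.ToType) (hm : rk 𝔖 (m :: t) < rk 𝔖 t)
      (h : ∀ j, m < j → rk 𝔖 (j :: t) < rk 𝔖 t → Tr w (j :: t)) : Tr w t

variable {𝔖}

theorem tr_leaf {w : Sp κ} {t : List κ.ord.ToType} (h : rk 𝔖 t = 0) :
    Tr 𝔖 w t ↔ w (𝔖.e t) = 𝔖.b1 := by
  constructor
  · intro h1
    cases h1 with
    | leaf _ _ hw => exact hw
    | node _ m hm _ =>
      rw [h] at hm
      exact absurd hm (not_lt.2 (zero_le))
  · exact fun hw => Tr.leaf t h hw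

theorem tr_node {w : Sp κ} {t : List κ.ord.ToType} (h : 0 < rk 𝔖 t) :
    Tr 𝔖 w t ↔ ∃ m, rk 𝔖 (m :: t) < rk 𝔖 t ∧
      ∀ j, m < j → rk 𝔖 (j :: t) < rk 𝔖 t → Tr 𝔖 w (j :: t) := by
  constructor
  · intro h1
    cases h1 with
    | leaf _ h0 _ => exact absurd h0 h.ne'
    | node _ m hm h2 => exact ⟨m, hm, h2⟩
  · rintro ⟨m, hm, h2⟩
    exact Tr.node t m hm h2

theorem tr_pt (z : Tot 𝔖) (t : List κ.ord.ToType) : Tr 𝔖 (pt z) t ↔ z.v t = true := by
  generalize hη : rk 𝔖 t = η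
  induction η using WellFoundedLT.induction generalizing t with
  | ind η ih =>
    subst hη
    rcases eq_or_ne (rk 𝔖 t) 0 with h0 | h0
    · rw [tr_leaf h0]
      exact pt_leaf z h0
    · have hp : 0 < rk 𝔖 t := pos_iff_ne_zero.2 h0
      rw [tr_node hp]
      constructor
      · rintro ⟨m, hm, h⟩
        obtain ⟨j, hj1, hj2⟩ := (good_rk 𝔖 hp).nomax (max m (z.m t)) (by
          rcases max_choice m (z.m t) with h1 | h1
          · rw [h1]; exact hm
          · rw [h1]; exact z.hm t hp)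
        have h3 := h j ((le_max_left _ _).trans_lt hj1) hj2
        rw [← z.hK t j hj2 ((le_max_right _ _).trans_lt hj1)]
        exact (ih _ hj2 _ rfl).1 h3
      · intro h
        refine ⟨z.m t, z.hm t hp, fun j hj hr => (ih _ hr _ rfl).2 ?_⟩
        rw [z.hK t j hr hj]
        exact h

theorem tr_sig (hO : OpOK κ (Sp κ)) (η : Ordinal.{0}) :
    ∃ n : ℕ, ∀ t, rk 𝔖 t = η → Sig κ (η + n + 1) {w | Tr 𝔖 w t} := by
  have hκ := 𝔖.reg
  have hcard : ∀ P : κ.ord.ToType → Prop, #{j // P j} ≤ κ := fun P =>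
    (mk_subtype_le _).trans (mk_ord_toType κ).le
  have hcomp : ∀ t, 0 < rk 𝔖 t → ∀ θ : Ordinal.{0}, 1 ≤ θ →
      (∀ j, rk 𝔖 (j :: t) < rk 𝔖 t → Sig κ θ {w | Tr 𝔖 w (j :: t)}ᶜ) →
      Sig κ (θ + 1) {w | Tr 𝔖 w t} := by
    intro t h0 θ hθ h
    have h1 : {w | Tr 𝔖 w t} = ⋃ m : {m // rk 𝔖 (m :: t) < rk 𝔖 t},
        ⋂ j : {j // m.1 < j ∧ rk 𝔖 (j :: t) < rk 𝔖 t}, {w | Tr 𝔖 w (j.1 :: t)} := by
      ext w
      simp only [mem_ofPred_eq, mem_iUnion, mem_iInter, tr_node h0]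
      constructor
      · rintro ⟨m, hm, h2⟩
        exact ⟨⟨m, hm⟩, fun j => h2 j.1 j.2.1 j.2.2⟩
      · rintro ⟨m, h2⟩
        exact ⟨m.1, m.2, fun j h3 h4 => h2 ⟨j, h3, h4⟩⟩
    rw [h1]
    refine Sig.union (θ + 1) (lt_of_le_of_lt hθ (lt_add_one θ)) _ (hcard _) _ (fun _ => θ)
      (fun _ => hθ) (fun _ => lt_add_one θ) fun m => ?_
    exact (sig_iInter hκ hθ (hcard _) fun j => h j.1 j.2.2).1
  induction η using WellFoundedLT.induction with
  | ind η ih =>
    rcases zero_or_succ_or_isSuccLimit η with h | ⟨ζ, rfl⟩ | h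
    · subst h
      refine ⟨0, fun t ht => ?_⟩
      have h1 : {w | Tr 𝔖 w t} = {w | w (𝔖.e t) = 𝔖.b1} := by
        ext w
        exact tr_leaf ht
      rw [h1]
      have h2 : IsOpen {w : Sp κ | w (𝔖.e t) = 𝔖.b1} := by
        have hne := nonempty_of hκ
        refine isOpen_iff.2 fun w hw => ?_
        obtain ⟨α, hα⟩ := exists_gt hκ (𝔖.e t)
        exact ⟨α, fun y hy => (hy _ hα).trans hw⟩
      have h3 : Sig κ 1 {w : Sp κ | w (𝔖.e t) = 𝔖.b1} := Sig.opn _ h2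
      simpa using h3
    · obtain ⟨n, hn⟩ := ih ζ (lt_add_one ζ)
      refine ⟨n + 1, fun t ht => ?_⟩
      have h0 : 0 < rk 𝔖 t := by
        rw [ht]
        exact lt_of_le_of_lt (zero_le) (lt_add_one ζ)
      have h1 := hcomp t h0 (ζ + n + 1 + 1) (by
        exact le_add_self) (fun j hj => by
          refine (hn (j :: t) ?_).compl hκ
          exact (good_rk 𝔖 h0).eqs ζ ht j)
      have h2 : ζ + 1 + ((n + 1 : ℕ) : Ordinal.{0}) + 1 = ζ + n + 1 + 1 + 1 := by
        have h4 : (1 : Ordinal.{0}) + ((n + 1 : ℕ) : Ordinal.{0}) = (n : Ordinal.{0}) + 1 + 1 := by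
          have : ((1 + (n + 1) : ℕ) : Ordinal.{0}) = ((n + 1 + 1 : ℕ) : Ordinal.{0}) := by
            congr 1
            omega
          push_cast at this ⊢
          exact this
        rw [add_assoc ζ 1, h4]
        simp only [add_assoc]
      rw [Order.succ_eq_add_one, h2]
      exact h1
    · refine ⟨0, fun t ht => ?_⟩
      have h0 : 0 < rk 𝔖 t := by
        rw [ht]
        exact lt_of_le_of_ne (zero_le) (fun hh => not_isSuccLimit_zero (hh ▸ h))
      have h1 := hcomp t h0 η (by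
        rw [← ht]
        exact Order.one_le_iff_pos.2 h0) (fun j hj => by
          rw [ht] at hj
          obtain ⟨n, hn⟩ := ih _ hj
          have h3 := (hn (j :: t) rfl).compl hκ
          refine sig_mono hO h3 (le_of_lt ?_)
          have h4 : ∀ k : ℕ, rk 𝔖 (j :: t) + k < η := by
            intro k
            induction k with
            | zero => simpa using hj
            | succ k ihk =>
              push_cast
              rw [← add_assoc]
              exact h.add_one_lt ihk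
          exact h.add_one_lt (h.add_one_lt (h4 n)))
      simpa using h1

variable (𝔖)

/-- The set for which the limit representation fails. -/
def bad : Set (Sp κ) := {w | ∀ j, rk 𝔖 [j] < 𝔖.ξ → ¬ Tr 𝔖 w [j]}

variable {𝔖}

theorem bad_sig (hO : OpOK κ (Sp κ)) : Sig κ 𝔖.ξ (bad 𝔖)ᶜ := by
  have h1 : (bad 𝔖)ᶜ = ⋃ j : {j // rk 𝔖 [j] < 𝔖.ξ}, {w | Tr 𝔖 w [j.1]} := by
    ext w
    simp only [bad, mem_compl_iff, mem_ofPred_eq, mem_iUnion, not_forall, not_not, exists_prop,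
      Subtype.exists]
  rw [h1]
  have h0 : 1 ≤ 𝔖.ξ := Order.one_le_iff_pos.2
    (lt_of_le_of_ne (zero_le) (fun hh => not_isSuccLimit_zero (hh ▸ 𝔖.lim)))
  refine sig_iUnion 𝔖.reg h0 ((mk_subtype_le _).trans (mk_ord_toType κ).le) fun j => ?_
  obtain ⟨n, hn⟩ := tr_sig (𝔖 := 𝔖) hO (rk 𝔖 [j.1])
  refine sig_mono hO (hn _ rfl) (le_of_lt ?_)
  have h4 : ∀ k : ℕ, rk 𝔖 [j.1] + k < 𝔖.ξ := by
    intro k
    induction k with
    | zero => simpa using j.2
    | succ k ihk =>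
      push_cast
      rw [← add_assoc]
      exact 𝔖.lim.add_one_lt ihk
  exact 𝔖.lim.add_one_lt (h4 n)

theorem mem_bad (z : Tot 𝔖) : pt z ∈ bad 𝔖 ↔ ∀ j, rk 𝔖 [j] < 𝔖.ξ → z.v [j] = false := by
  simp only [bad, mem_ofPred_eq, tr_pt, Bool.not_eq_true]

end Pool.Agent.W2helper54.GB
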