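import Mathlib
import Pool.Agent.W2helper54.GB.Tr

set_option autoImplicit false

/-!
# The bad set is not a `κ`-limit of sets in `Σ⁰_ξ`
-/

namespace Pool.Agent.W2helper54.GB

open Cardinal Set Ordinal Pool.Agent.R590.Kur Pool.Agent.R590.Brl

variable {κ : Cardinal.{0}} {𝔖 : Sys κ}

/-- the condition which puts the generic point into the bad set -/
theorem exists_pA : ∃ p : Cond 𝔖, (∀ t ∈ p.S, p.z.v t = false) ∧
    ∀ j, rk 𝔖 [j] < 𝔖.ξ → [j] ∈ p.S := by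
  classical
  have hne : Nonempty κ.ord.ToType := ⟨𝔖.b0⟩
  have h : ∀ t, 0 < rk 𝔖 t → ∃ m, rk 𝔖 (m :: t) < rk 𝔖 t := fun t ht => (good_rk 𝔖 ht).ne
  choose! g hg using h
  let z : Tot 𝔖 := ⟨fun _ => false, g, hg, fun _ _ _ _ => rfl⟩
  have h0 : 0 < 𝔖.ξ := lt_of_le_of_ne (zero_le) (fun hh => not_isSuccLimit_zero (hh ▸ 𝔖.lim))
  have hsm : #(insert [] ((fun j => [j]) '' {j | 𝔖.r 𝔖.ξ j < 𝔖.ξ}) :
      Set (List κ.ord.ToType)) < κ := by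
    refine mk_insert_le.trans_lt (add_lt_of_lt 𝔖.reg.aleph0_le ?_
      (lt_of_lt_of_le one_lt_aleph0 𝔖.reg.aleph0_le))
    exact mk_image_le.trans_lt ((𝔖.good 𝔖.ξ h0 le_rfl).few 𝔖.lim 𝔖.hcof)
  obtain ⟨p, h1, h2, h3⟩ := exists_add z _ hsm
  refine ⟨p, fun t _ => by rw [h3], fun j hj => h2 (Or.inr ⟨j, hj, rfl⟩)⟩

/-- changing the value of one child of the root -/
theorem exists_flip {p pA : Cond 𝔖}
    (hch : ∀ j, rk 𝔖 [j] < 𝔖.ξ → [j] ∈ pA.S) (hp : Le p pA) {α : Ordinal.{0}} (hα : α < 𝔖.ξ) :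
    ∃ (ν : κ.ord.ToType) (r : Cond 𝔖), rk 𝔖 [ν] < 𝔖.ξ ∧ LeA α r p ∧ [ν] ∈ r.S ∧
      r.z.v [ν] = true := by
  classical
  have h0 : 0 < 𝔖.ξ := lt_of_le_of_ne (zero_le) (fun hh => not_isSuccLimit_zero (hh ▸ 𝔖.lim))
  obtain ⟨ν, hν1, hν2⟩ := (𝔖.good 𝔖.ξ h0 le_rfl).cof (α + 1) (𝔖.lim.add_one_lt hα)
  have hν1' : α < rk 𝔖 [ν] := lt_of_lt_of_le (lt_add_one α) hν1
  have hν2' : rk 𝔖 [ν] < 𝔖.ξ := hν2
  obtain ⟨ζ, hζ⟩ := (𝔖.good 𝔖.ξ h0 le_rfl).suc 𝔖.lim ν hν2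
  have hζ' : rk 𝔖 [ν] = ζ + 1 := hζ
  have hνpos : 0 < rk 𝔖 [ν] := lt_of_le_of_lt (zero_le) hν1'
  -- a new modulus at the child
  obtain ⟨m', hm'1, hm'2⟩ := (good_rk 𝔖 hνpos).bd ζ (by rw [hζ']; exact lt_add_one ζ)
    {j | j :: [ν] ∈ p.S} (by
      refine lt_of_le_of_lt ?_ p.small
      refine mk_le_of_injective (f := fun j => ⟨j.1 :: [ν], j.2⟩) ?_
      intro a b hab
      have h1 := congrArg Subtype.val hab
      simp only [List.cons.injEq, and_true] at h1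
      exact Subtype.ext h1) (fun j _ => by
        have h5 := (good_rk 𝔖 hνpos).eqs ζ hζ' j
        refine ⟨?_, h5.le⟩
        rw [h5, hζ']
        exact lt_add_one ζ)
  let v0 : List κ.ord.ToType → Bool := fun t => if t = [ν] then true else p.z.v t
  let m0 : List κ.ord.ToType → κ.ord.ToType := fun t =>
    if t = [ν] then m' else if t = [] then max ν (p.z.m []) else p.z.m t
  have hv1 : v0 [ν] = true := if_pos rfl
  have hv2 : ∀ t, t ≠ [ν] → v0 t = p.z.v t := fun t ht => if_neg ht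
  have hm1 : m0 [ν] = m' := if_pos rfl
  have hm2 : m0 [] = max ν (p.z.m []) := by
    show (if ([] : List κ.ord.ToType) = [ν] then m' else _) = _
    rw [if_neg (List.cons_ne_nil _ _).symm, if_pos rfl]
  have hm3 : ∀ t, t ≠ [ν] → t ≠ [] → m0 t = p.z.m t := fun t h1 h2 => by
    show (if t = [ν] then m' else _) = _
    rw [if_neg h1, if_neg h2]
  have key : ∃ z : Tot 𝔖, ∀ t ∈ p.S, z.v t = v0 t ∧ z.m t = m0 t := by
    refine exists_tot (𝔖 := 𝔖) p.S v0 m0 ?_ ?_ ?_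
    · intro t ht h0t
      by_cases h1 : t = [ν]
      · subst h1
        rw [hm1]
        exact hm'1
      · by_cases h2 : t = []
        · subst h2
          rw [hm2]
          rcases max_choice ν (p.z.m []) with h3 | h3
          · rw [h3]
            exact hν2'
          · rw [h3]
            exact p.z.hm _ h0t
        · rw [hm3 t h1 h2]
          exact p.z.hm t h0t
    · intro t ht j hj hr hlt
      by_cases h1 : t = [ν]
      · subst h1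
        rw [hm1] at hlt
        exact absurd (hm'2 j hj) (not_le.2 hlt)
      · by_cases h2 : t = []
        · subst h2
          rw [hm2] at hlt
          have h3 : [j] ≠ [ν] := by
            intro h4
            simp only [List.cons.injEq, and_true] at h4
            rw [h4] at hlt
            exact absurd (le_max_left _ _) (not_le.2 hlt)
          rw [hv2 _ h3, hv2 _ h1]
          exact p.z.hK [] j hr ((le_max_right _ _).trans_lt hlt)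
        · rw [hm3 t h1 h2] at hlt
          have h3 : j :: t ≠ [ν] := by
            intro h4
            simp only [List.cons.injEq] at h4
            exact h2 h4.2
          rw [hv2 _ h3, hv2 _ h1]
          exact p.z.hK t j hr hlt
    · intro t ht h0t
      obtain ⟨m, hm⟩ := (good_rk 𝔖 h0t).ne
      exact ⟨m, hm, fun j hj hr => absurd (p.par t j hj hr) ht⟩
  obtain ⟨z, hz⟩ := key
  have hνS : [ν] ∈ p.S := (hp _ (hch ν hν2')).1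
  refine ⟨ν, ⟨p.S, p.small, p.par, z⟩, hν2', ?_, hνS, ?_⟩
  · intro t ht hr
    obtain ⟨a, b⟩ := hz t ht
    have h1 : t ≠ [ν] := by
      rintro rfl
      exact absurd hr (not_le.2 hν1')
    have h2 : t ≠ [] := by
      rintro rfl
      exact absurd hr (not_le.2 hα)
    rw [hv2 t h1] at a
    rw [hm3 t h1 h2] at b
    exact ⟨ht, a, b⟩
  · exact (hz _ hνS).1.trans hv1

/-- The key negative result. -/
theorem bad_not_lim (A : κ.ord.ToType → Set (Sp κ)) (hA : ∀ β, Sig κ 𝔖.ξ (A β))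
    (hlim : ∀ w, ∃ β0, ∀ β, β0 ≤ β → (w ∈ A β ↔ w ∈ bad 𝔖)) : False := by
  classical
  have hκ := 𝔖.reg
  have hne : Nonempty κ.ord.ToType := ⟨𝔖.b0⟩
  have hξ0 : 0 < 𝔖.ξ := lt_of_le_of_ne (zero_le) (fun hh => not_isSuccLimit_zero (hh ▸ 𝔖.lim))
  have hξ1 : 1 < 𝔖.ξ := by
    have := 𝔖.lim.add_one_lt hξ0
    rwa [zero_add] at this
  -- codes
  have hcode : ∀ β, ∃ (F : κ.ord.ToType → Code κ) (ρ : κ.ord.ToType → Ordinal.{0}),
      val (.un F) = A β ∧ Rk (.un F) 𝔖.ξ ∧ (∀ i, ρ i < 𝔖.ξ) ∧ ∀ i, Rk (F i) (ρ i) := by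
    intro β
    obtain ⟨c, h1, h2⟩ := exists_code hκ (hA β)
    generalize 𝔖.ξ = η at h2 hξ1
    cases h2 with
    | opn U hU => exact absurd hξ1 (lt_irrefl _)
    | un F _ ρ k1 k2 k3 => exact ⟨F, ρ, h1, Rk.un F _ ρ k1 k2 k3, k2, k3⟩
  choose F ρ hval hRk hρ hRk' using hcode
  -- the enumeration of all relevant codes
  have henum : ∃ g : κ.ord.ToType → Code κ, ∀ β, ∀ c ∈ subs (.un (F β)), c ∈ range g := by
    have h1 : #(⋃ β, subs (.un (F β)) : Set (Code κ)) ≤ κ := by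
      refine (mk_iUnion_le _).trans ?_
      calc #(κ.ord.ToType) * (⨆ β, #(subs (.un (F β)) : Set (Code κ))) ≤ κ * κ :=
            mul_le_mul' (mk_ord_toType κ).le (ciSup_le' fun β => mk_subs hκ _)
        _ = κ := mul_eq_self hκ.aleph0_le
    have hne2 : Nonempty (⋃ β, subs (.un (F β)) : Set (Code κ)) :=
      ⟨⟨F 𝔖.b0 𝔖.b0, mem_iUnion.2 ⟨𝔖.b0, mem_iUnion.2 ⟨𝔖.b0, Or.inl rfl⟩⟩⟩⟩
    have h2 : #(⋃ β, subs (.un (F β)) : Set (Code κ)) ≤ #(κ.ord.ToType) := by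
      rwa [mk_ord_toType]
    obtain ⟨f⟩ := h2
    refine ⟨fun i => (Function.invFun f i).1, fun β c hc => ?_⟩
    refine ⟨f ⟨c, mem_iUnion.2 ⟨β, hc⟩⟩, ?_⟩
    show (Function.invFun f (f ⟨c, mem_iUnion.2 ⟨β, hc⟩⟩)).1 = c
    rw [Function.leftInverse_invFun f.injective]
  obtain ⟨g, hg⟩ := henum
  -- a general consequence of genericity
  have hgen : ∀ (p0 : Cond 𝔖) (E : κ.ord.ToType → Set (Cond 𝔖)),
      (∀ i, ∀ p q, p ∈ E i → Le q p → q ∈ E i) → (∀ i, ∀ p, Le p p0 → ∃ q, Le q p ∧ q ∈ E i) →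
      ∃ z : Tot 𝔖, Sub p0 z ∧ (∀ i, ∃ q, q ∈ E i ∧ Sub q z) ∧
        ∀ β, ∀ c ∈ subs (.un (F β)), Met z c := by
    intro p0 E hE1 hE2
    obtain ⟨z, hz0, hz⟩ := exists_gen p0
      (fun i => {q | q ∈ E i ∧ (fr (g i) q ∨ nf (g i) q)}) (by
        intro i p hp
        obtain ⟨q, hq1, hq2⟩ := hE2 i p hp
        obtain ⟨r, hr1, hr2⟩ := dense_met (g i) q
        exact ⟨r, hr1.trans hq1, hE1 i q r hq2 hr1, hr2⟩)
    refine ⟨z, hz0, fun i => ?_, fun β c hc => ?_⟩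
    · obtain ⟨q, -, hq, hs⟩ := hz i
      exact ⟨q, hq.1, hs⟩
    · obtain ⟨i, rfl⟩ := hg β c hc
      obtain ⟨q, -, hq, hs⟩ := hz i
      exact ⟨q, hs, hq.2⟩
  obtain ⟨pA, hpA1, hpA3⟩ := exists_pA (𝔖 := 𝔖)
  -- Step 1
  have step1 : ∃ q, Le q pA ∧ ∃ β0, ∀ β, β0 ≤ β → ∀ q', Le q' q → ∃ q'', Le q'' q' ∧
      ∃ i, nf (F β i) q'' := by
    by_contra hcon
    push Not at hcon
    obtain ⟨z, hz0, hz1, hz2⟩ := hgen pA (fun β0 => {q' | ∃ β, β0 ≤ β ∧ nf (.un (F β)) q'})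
      (by
        rintro i p q ⟨β, h1, h2⟩ hq
        exact ⟨β, h1, h2.mono hq⟩)
      (by
        intro i p hp
        obtain ⟨β, h1, q', h2, h3⟩ := hcon p hp i
        refine ⟨q', h2, β, h1, fun q'' hq'' hf => ?_⟩
        obtain ⟨k, hk⟩ := hf
        exact h3 q'' hq'' k hk)
    have hin : pt z ∈ bad 𝔖 := (mem_bad z).2 fun j hj => by
      rw [(hz0 _ (hpA3 j hj)).1]
      exact hpA1 _ (hpA3 j hj)
    obtain ⟨β0, hβ0⟩ := hlim (pt z)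
    obtain ⟨q', ⟨β, h1, h2⟩, h3⟩ := hz1 β0
    have h4 : pt z ∈ A β := (hβ0 β h1).2 hin
    rw [← hval β] at h4
    obtain ⟨p, hp1, hp2⟩ := (truth (hRk β) (hz2 β)).1 h4
    obtain ⟨r, -, hr1, hr2⟩ := hp1.common h3
    exact h2 r hr2 (fr_mono hp2 hr1)
  obtain ⟨q1, hq1, β1, hβ1⟩ := step1
  -- Step 2
  have step2 : ∃ η, η < 𝔖.ξ ∧ ∃ p', Le p' q1 ∧ ∀ p, Le p p' → ∀ β0, ∃ q', Le q' p ∧
      ∃ β, β0 ≤ β ∧ ∃ i, ρ β i ≤ η ∧ nf (F β i) q' := by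
    by_contra hcon
    push Not at hcon
    have hgood := 𝔖.good 𝔖.ξ hξ0 le_rfl
    obtain ⟨s, hs1, hs2, hs3⟩ := exists_seq q1
      (fun j => {p | 𝔖.r 𝔖.ξ j < 𝔖.ξ → ∃ β0, ∀ q', Le q' p → ∀ β, β0 ≤ β → ∀ i,
        ρ β i ≤ 𝔖.r 𝔖.ξ j → ¬ nf (F β i) q'}) (by
        intro j p hp
        by_cases hj : 𝔖.r 𝔖.ξ j < 𝔖.ξ
        · obtain ⟨q, hq, β0, h⟩ := hcon _ hj p hp
          exact ⟨q, hq, fun _ => ⟨β0, h⟩⟩
        · exact ⟨p, Le.refl p, fun h => absurd h hj⟩)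
    obtain ⟨i0, hi0⟩ := exists_ub_set hκ _ (hgood.few 𝔖.lim 𝔖.hcof)
    have h5 : ∀ j : {j | 𝔖.r 𝔖.ξ j < 𝔖.ξ}, ∃ β0, ∀ q', Le q' (s j.1) → ∀ β, β0 ≤ β → ∀ i,
        ρ β i ≤ 𝔖.r 𝔖.ξ j.1 → ¬ nf (F β i) q' := fun j => hs3 j.1 j.2
    choose b hb using h5
    obtain ⟨β2, hβ2⟩ := exists_ub hκ (hgood.few 𝔖.lim 𝔖.hcof) b
    obtain ⟨q'', hq'', i, hi⟩ := hβ1 (max β1 β2) (le_max_left _ _) (s i0) (hs1 i0)
    obtain ⟨j, hj1, hj2⟩ := hgood.cof _ (hρ (max β1 β2) i)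
    exact hb ⟨j, hj2⟩ q'' (hq''.trans (hs2 j i0 (hi0 j hj2))) (max β1 β2)
      ((hβ2 ⟨j, hj2⟩).le.trans (le_max_right _ _)) i hj1 hi
  obtain ⟨η, hη, p1, hp1, hp1'⟩ := step2
  -- Step 3
  obtain ⟨p', hp', hcl⟩ := exists_cl (η + 1 + 1) p1
  obtain ⟨ν, r0, hν, hr0, hνS, hνv⟩ := exists_flip hpA3 ((hp'.trans hp1).trans hq1)
    (𝔖.lim.add_one_lt (𝔖.lim.add_one_lt hη))
  obtain ⟨z, hz0, hz1, hz2⟩ := hgen r0
    (fun β0 => {q' | ∃ β, β0 ≤ β ∧ ∃ i, nf (F β i) q'})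
    (by
      rintro i p q ⟨β, h1, k, h2⟩ hq
      exact ⟨β, h1, k, h2.mono hq⟩)
    (by
      intro β0 r hr
      obtain ⟨r', hr', hclr⟩ := exists_cl (η + 1) r
      have h1 : LeA (η + 1 + 1) r' p' := ((hr'.trans hr).leA _).trans hr0
      obtain ⟨p'', h2, h3⟩ := amalg (lt_add_one (η + 1)) hcl h1
      obtain ⟨q', h4, β, h5, i, h6, h7⟩ := hp1' p'' (h2.trans hp') β0
      obtain ⟨q'', h8, h9⟩ := exists_cl (ρ β i) q'
      have h10 : LeA (η + 1) q'' r' := ((h8.trans h4).leA _).trans h3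
      obtain ⟨r'', h11, h12⟩ := amalg (lt_of_le_of_lt h6 (lt_add_one η)) hclr h10
      exact ⟨r'', h11.trans hr', β, h5, i, rank_lemma (hRk' β i) q'' h9 (h7.mono h8) r'' h12⟩)
  have hout : pt z ∉ bad 𝔖 := by
    intro h
    have h1 := (mem_bad z).1 h ν hν
    rw [(hz0 _ hνS).1, hνv] at h1
    exact absurd h1 (by simp)
  obtain ⟨β0, hβ0⟩ := hlim (pt z)
  obtain ⟨q', ⟨β, h1, i, h2⟩, h3⟩ := hz1 β0
  refine hout ((hβ0 β h1).1 ?_)
  rw [← hval β]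
  refine mem_iUnion.2 ⟨i, fun h4 => ?_⟩
  obtain ⟨p, hp1, hp2⟩ := (truth (hRk' β i) fun c hc =>
    hz2 β c (mem_iUnion.2 ⟨i, Or.inr hc⟩)).1 h4
  obtain ⟨r, -, hr1, hr2⟩ := hp1.common h3
  exact h2 r hr2 (fr_mono hp2 hr1)

/-- the data of the construction exist -/
theorem exists_sys (hκ : κ.IsRegular) (hunc : ℵ₀ < κ) {ξ : Ordinal.{0}}
    (hlim : Order.IsSuccLimit ξ) (hcof : ξ.cof < κ) (hξ : ξ < (Order.succ κ).ord) :
    ∃ 𝔖 : Sys κ, 𝔖.ξ = ξ := by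
  classical
  have hne := nonempty_of hκ
  have h1 : ∀ η : Ordinal.{0}, ∃ g : κ.ord.ToType → Ordinal.{0},
      (η = 0 → ∀ j, g j = 0) ∧ (0 < η → η ≤ ξ → Good κ η g) := by
    intro η
    by_cases h : 0 < η ∧ η ≤ ξ
    · obtain ⟨g, hg⟩ := exists_good hκ h.1 (h.2.trans_lt hξ)
      exact ⟨g, fun h0 => absurd h0 h.1.ne', fun _ _ => hg⟩
    · exact ⟨fun _ => 0, fun _ _ => rfl, fun a b => absurd ⟨a, b⟩ h⟩
  choose r hr1 hr2 using h1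
  have hK : #(κ.ord.ToType) = κ := mk_ord_toType κ
  have hinf : Infinite κ.ord.ToType := by
    rw [infinite_iff, hK]
    exact hκ.aleph0_le
  have hL : #(List κ.ord.ToType) ≤ #(κ.ord.ToType) := (mk_list_eq_mk _).le
  obtain ⟨e⟩ := hL
  obtain ⟨b0, b1, hb⟩ := exists_pair_ne κ.ord.ToType
  exact ⟨⟨hκ, hunc, ξ, hlim, hcof, r, fun j => hr1 0 rfl j, fun η a b => hr2 η a b, e, e.injective,
    b0, b1, hb⟩, rfl⟩

/-- There is a set in `Π⁰_ξ` which is not the limit of a `κ`-sequence of sets in `Σ⁰_ξ`. -/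
theorem exists_bad (hκ : κ.IsRegular) (hunc : ℵ₀ < κ) (h2 : (2 : Cardinal.{0}) ^< κ = κ)
    {ξ : Ordinal.{0}} (hlim : Order.IsSuccLimit ξ) (hcof : ξ.cof < κ)
    (hξ : ξ < (Order.succ κ).ord) :
    ∃ B : Set (Sp κ), Sig κ ξ Bᶜ ∧ ∀ A : κ.ord.ToType → Set (Sp κ), (∀ β, Sig κ ξ (A β)) →
      ¬ ∀ w, ∃ β0, ∀ β, β0 ≤ β → (w ∈ A β ↔ w ∈ B) := by
  obtain ⟨𝔖, rfl⟩ := exists_sys hκ hunc hlim hcof hξ
  exact ⟨bad 𝔖, bad_sig (opOK_sp hκ h2), fun A hA h => bad_not_lim A hA h⟩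

end Pool.Agent.W2helper54.GB
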