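import Mathlib
import Pool.Agent.R590.BrFin

set_option autoImplicit false

/-!
# Baire stratification and limits
-/

namespace Pool.Agent.W2helper54.GB

open Cardinal Set Filter Topology Pool.Agent.R590.Kur Pool.Agent.R590.Brl

/-- The class `M_ξ(X, Y)`: the functions for which the preimages of open sets are in
`Σ⁰_ξ(X)`. -/
def Meas (κ : Cardinal.{0}) (X Y : Type) [TopologicalSpace X] [TopologicalSpace Y]
    (ξ : Ordinal.{0}) : Set (X → Y) :=
  {f | ∀ U : Set Y, IsOpen U → Sig κ ξ (f ⁻¹' U)}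

/-- The class `M_{<ξ}(X, Y)`, the union of the classes `M_η(X, Y)` for `1 ≤ η < ξ`. -/
def MeasLT (κ : Cardinal.{0}) (X Y : Type) [TopologicalSpace X] [TopologicalSpace Y]
    (ξ : Ordinal.{0}) : Set (X → Y) :=
  {f | ∃ η, 1 ≤ η ∧ η < ξ ∧ f ∈ Meas κ X Y η}

/-- The class `lim_μ F`: the pointwise limits of families from `F` indexed by the cardinal `μ`. -/
def Lim {X Y : Type} [TopologicalSpace Y] (μ : Cardinal.{0}) (F : Set (X → Y)) : Set (X → Y) :=
  {f | ∃ g : μ.ord.ToType → X → Y, (∀ i, g i ∈ F) ∧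
    ∀ x, Tendsto (fun i => g i x) atTop (𝓝 (f x))}

/-- The class of all `f` which are the stable limit, with respect to an increasing covering
of `X` by sets in `Σ⁰_ξ(X)` indexed by `μ`, of a family from `F` indexed by the cardinal `μ`. -/
def HatLim (κ : Cardinal.{0}) {X Y : Type} [TopologicalSpace X] (ξ : Ordinal.{0})
    (μ : Cardinal.{0}) (F : Set (X → Y)) : Set (X → Y) :=
  {f | ∃ (g : μ.ord.ToType → X → Y) (E : μ.ord.ToType → Set X), (∀ i, g i ∈ F) ∧
    (∀ i, Sig κ ξ (E i)) ∧ (∀ i j, i ≤ j → E i ⊆ E j) ∧ (∀ x, ∃ i, x ∈ E i) ∧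
    ∀ i j, i ≤ j → ∀ x ∈ E i, g j x = f x}

end Pool.Agent.W2helper54.GB
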