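import Mathlib
import Pool.Agent.W2helper54.GB.Ranks
import Pool.Agent.W2helper54.GB.SigL

set_option autoImplicit false

/-!
# Approximation schemes for Borel sets
-/

namespace Pool.Agent.W2helper54.GB

open Cardinal Set Pool.Agent.R590.Kur Pool.Agent.R590.Brl

variable {κ : Cardinal.{0}}

/-- closed in the order topology -/
def Clo (P : κ.ord.ToType → Prop) : Prop :=
  ∀ γ, (∃ β, β < γ) → (∀ β, β < γ → ∃ β', β < β' ∧ β' ≤ γ ∧ P β') → P γ

theorem exists_min (P : κ.ord.ToType → Prop) (h : ∃ u, P u) :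
    ∃ u, P u ∧ ∀ v, P v → u ≤ v := by
  obtain ⟨u, hu⟩ := h
  have hne : {v | P v}.Nonempty := ⟨u, hu⟩
  exact ⟨(wellFounded_lt (α := κ.ord.ToType)).min {v | P v} hne, WellFounded.min_mem _ _ hne,
    fun v hv => not_lt.1 (WellFounded.not_lt_min _ (s := {v | P v}) hv)⟩

/-- suprema of countable increasing sequences -/
theorem exists_sup (hκ : κ.IsRegular) (hunc : ℵ₀ < κ) (b : ℕ → κ.ord.ToType) :
    ∃ γ, (∀ n, b n < γ) ∧ ∀ β, β < γ → ∃ n, β ≤ b n := by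
  obtain ⟨u, hu⟩ := exists_ub hκ (M := ℕ) (by rwa [mk_nat]) b
  obtain ⟨γ, h1, h2⟩ := exists_min (fun u => ∀ n, b n < u) ⟨u, hu⟩
  refine ⟨γ, h1, fun β hβ => ?_⟩
  by_contra hc
  push Not at hc
  exact absurd (h2 β hc) (not_le.2 hβ)

/-- diagonal intersections -/
theorem diag (hκ : κ.IsRegular) (hunc : ℵ₀ < κ) {I : Type} (e : I → κ.ord.ToType)
    (he : Function.Injective e) (P : I → κ.ord.ToType → Prop) (hclo : ∀ i, Clo (P i))
    (hunb : ∀ i β, ∃ γ, β ≤ γ ∧ P i γ) (β : κ.ord.ToType) :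
    ∃ γ, β < γ ∧ ∀ i, e i < γ → P i γ := by
  have h1 : ∀ β : κ.ord.ToType, ∃ β', β < β' ∧ ∀ i, e i < β → ∃ δ, β < δ ∧ δ < β' ∧ P i δ := by
    intro β
    obtain ⟨β1, hβ1⟩ := exists_gt hκ β
    have h2 : ∀ i, ∃ δ, β1 ≤ δ ∧ P i δ := fun i => hunb i β1
    choose δ hδ1 hδ2 using h2
    have hsm : #{i // e i < β} < κ := by
      refine lt_of_le_of_lt ?_ (mk_Iio_lt' β)
      refine mk_le_of_injective (f := fun i => (⟨e i.1, i.2⟩ : Iio β)) ?_
      intro a b hab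
      exact Subtype.ext (he (congrArg Subtype.val hab))
    obtain ⟨u, hu⟩ := exists_ub hκ hsm (fun i => δ i.1)
    refine ⟨max u β1, hβ1.trans_le (le_max_right _ _), fun i hi => ⟨δ i, hβ1.trans_le (hδ1 i),
      (hu ⟨i, hi⟩).trans_le (le_max_left _ _), hδ2 i⟩⟩
  choose G hG1 hG2 using h1
  let b : ℕ → κ.ord.ToType := fun n => Nat.rec β (fun _ c => G c) n
  have hb : ∀ n, b n < b (n + 1) := fun n => hG1 (b n)
  obtain ⟨γ, h2, h3⟩ := exists_sup hκ hunc b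
  have hmono : StrictMono b := strictMono_nat_of_lt_succ hb
  refine ⟨γ, h2 0, fun i hi => hclo i γ ⟨_, h2 0⟩ fun β' hβ' => ?_⟩
  obtain ⟨n, hn⟩ := h3 _ hi
  obtain ⟨k, hk⟩ := h3 _ hβ'
  have h4 : e i < b (max n k + 1) :=
    hn.trans_lt (hmono (Nat.lt_succ_of_le (le_max_left n k)))
  obtain ⟨δ, h5, h6, h7⟩ := hG2 (b (max n k + 1)) i h4
  refine ⟨δ, ?_, ?_, h7⟩
  · exact (hk.trans (hmono.monotone (le_max_right n k))).trans_lt
      ((hmono (Nat.lt_succ_self _)).trans h5)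
  · exact (h6.trans (h2 (max n k + 1 + 1))).le

/-- the largest element below a bound -/
theorem exists_max (P : κ.ord.ToType → Prop) (hclo : Clo P)
    (h0 : ∀ γ, (∀ β, ¬ β < γ) → P γ) (δ : κ.ord.ToType) :
    ∃ γ, γ ≤ δ ∧ P γ ∧ ∀ γ', γ' ≤ δ → P γ' → γ' ≤ γ := by
  obtain ⟨u, hu1, hu2⟩ := exists_min (fun u => ∀ γ, γ ≤ δ → P γ → γ ≤ u) ⟨δ, fun γ h _ => h⟩
  refine ⟨u, hu2 δ fun γ h _ => h, ?_, hu1⟩
  by_cases h : ∃ β, β < u
  · refine hclo u h fun β hβ => ?_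
    by_contra hc
    push Not at hc
    refine absurd (hu2 β fun γ h1 h2 => ?_) (not_le.2 hβ)
    by_contra h3
    exact hc γ (not_le.1 h3) (hu1 γ h1 h2) h2
  · push Not at h
    exact h0 u fun β hβ => absurd hβ (not_lt.2 (h β))

/-- Approximation schemes. -/
structure Sch {X : Set (Sp κ)} (A : Set X) (θ : Ordinal.{0})
    (a C : κ.ord.ToType → X → Prop) : Prop where
  loc : ∀ γ (x y : X), Agree y.1 x.1 γ → a γ x → a γ y
  cor : ∀ γ x, C γ x → (a γ x ↔ x ∈ A)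
  clo : ∀ x, Clo fun γ => C γ x
  unb : ∀ x β, ∃ γ, β ≤ γ ∧ C γ x
  cmp : ∀ γ, Sig κ θ {x | C γ x}
  cmp' : ∀ γ, Sig κ θ {x | C γ x}ᶜ

theorem isOpen_loc (hκ : κ.IsRegular) {X : Set (Sp κ)} {S : Set X} (γ : κ.ord.ToType)
    (h : ∀ x y : X, Agree y.1 x.1 γ → x ∈ S → y ∈ S) : IsOpen S := by
  have hne := nonempty_of hκ
  have h1 : S = (↑) ⁻¹' {w : Sp κ | ∃ x ∈ S, Agree w x.1 γ} := by
    ext y
    simp only [mem_preimage, mem_ofPred_eq]
    exact ⟨fun hy => ⟨y, hy, Agree.refl _ _⟩, fun ⟨x, hx, hy⟩ => h x y hy hx⟩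
  rw [h1]
  refine IsOpen.preimage continuous_subtype_val (isOpen_iff.2 fun w hw => ?_)
  obtain ⟨x, hx, hwx⟩ := hw
  exact ⟨γ, fun y hy => ⟨x, hx, hy.trans hwx⟩⟩

theorem exists_sch (hκ : κ.IsRegular) (hunc : ℵ₀ < κ) (h2 : (2 : Cardinal.{0}) ^< κ = κ)
    {X : Set (Sp κ)} {A : Set X} {ξ : Ordinal.{0}} (h : Sig κ ξ A) :
    ∃ a C, Sch A (ξ + 1 + 1 + 1 + 1) a C := by
  have hO := opOK_sub hκ h2 X
  induction h with
  | opn A hA =>
    refine ⟨fun γ x => ∀ y : X, Agree y.1 x.1 γ → y ∈ A,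
      fun γ x => x ∈ A → ∀ y : X, Agree y.1 x.1 γ → y ∈ A, ⟨?_, ?_, ?_, ?_, ?_, ?_⟩⟩
    · intro γ x y hxy h z hz
      exact h z (Agree.trans hz hxy)
    · intro γ x h
      exact ⟨fun h' => h' x (Agree.refl _ _), h⟩
    · rintro x γ ⟨β, hβ⟩ h hx y hy
      obtain ⟨β', -, h1, h2⟩ := h β hβ
      exact h2 hx y (hy.mono h1)
    · intro x β
      by_cases hx : x ∈ A
      · obtain ⟨α, hα⟩ := exists_nhd hκ hA hx
        exact ⟨max β α, le_max_left _ _, fun _ y hy => hα y (hy.mono (le_max_right _ _))⟩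
      · exact ⟨β, le_rfl, fun h => absurd h hx⟩
    · intro γ
      have h1 : {x : X | x ∈ A → ∀ y : X, Agree y.1 x.1 γ → y ∈ A} =
          Aᶜ ∪ {x : X | ∀ y : X, Agree y.1 x.1 γ → y ∈ A} := by
        ext x
        simp only [mem_ofPred_eq, mem_union, mem_compl_iff]
        tauto
      rw [h1]
      have h3 : Sig κ (1 + 1) Aᶜ := (Sig.opn A hA).compl hκ
      have h4 : Sig κ 1 {x : X | ∀ y : X, Agree y.1 x.1 γ → y ∈ A} :=
        Sig.opn _ (isOpen_loc hκ γ fun x y hxy h z hz => h z (Agree.trans hz hxy))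
      have h5 := sig_union hκ h3 (sig_mono hO h4 le_self_add)
      refine sig_mono hO h5 ?_
      simp only [add_assoc]
      exact add_le_add_right (le_self_add) 1
    · intro γ
      have h1 : {x : X | x ∈ A → ∀ y : X, Agree y.1 x.1 γ → y ∈ A}ᶜ =
          A ∩ {x : X | ∀ y : X, Agree y.1 x.1 γ → y ∈ A}ᶜ := by
        ext x
        simp only [mem_ofPred_eq, mem_inter_iff, mem_compl_iff]
        tauto
      rw [h1]
      have h4 : Sig κ 1 {x : X | ∀ y : X, Agree y.1 x.1 γ → y ∈ A}ᶜ :=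
        Sig.opn _ (isOpen_loc hκ γ fun x y hxy h h' => h fun z hz =>
          h' z (Agree.trans hz hxy.symm))
      have h5 := sig_inter hκ hO (Sig.opn A hA) h4
      refine sig_mono hO h5 ?_
      simp only [add_assoc]
      exact le_self_add
  | union ξ hξ I hI F η h1 hlt h3 ih =>
    choose a C hS using ih
    obtain ⟨e, he⟩ : ∃ e : I → κ.ord.ToType, Function.Injective e := by
      have h5 : #I ≤ #(κ.ord.ToType) := by rwa [mk_ord_toType]
      obtain ⟨f⟩ := h5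
      exact ⟨f, f.injective⟩
    refine ⟨fun γ x => ∃ i, e i < γ ∧ ¬ a i γ x,
      fun γ x => (∀ i, e i < γ → C i γ x) ∧ (x ∈ (⋃ i, F i) → ∃ i, e i < γ ∧ x ∈ F i),
      ⟨?_, ?_, ?_, ?_, ?_, ?_⟩⟩
    · rintro γ x y hxy ⟨i, hi, h⟩
      exact ⟨i, hi, fun h' => h ((hS i).loc γ y x hxy.symm h')⟩
    · rintro γ x ⟨hC1, hC2⟩
      constructor
      · rintro ⟨i, hi, h⟩
        refine mem_iUnion.2 ⟨i, ?_⟩
        by_contra hc
        exact h (((hS i).cor γ x (hC1 i hi)).2 hc)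
      · intro hx
        obtain ⟨i, hi, hxi⟩ := hC2 hx
        exact ⟨i, hi, fun h => ((hS i).cor γ x (hC1 i hi)).1 h hxi⟩
    · rintro x γ ⟨β, hβ⟩ h
      refine ⟨fun i hi => (hS i).clo x γ ⟨β, hβ⟩ fun β' hβ' => ?_, fun hx => ?_⟩
      · obtain ⟨δ, h4, h5, h6⟩ := h (max β' (e i)) (max_lt hβ' hi)
        exact ⟨δ, (le_max_left _ _).trans_lt h4, h5, h6.1 i ((le_max_right _ _).trans_lt h4)⟩
      · obtain ⟨δ, -, h5, h6⟩ := h β hβ
        obtain ⟨i, h7, h8⟩ := h6.2 hx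
        exact ⟨i, h7.trans_le h5, h8⟩
    · intro x β
      have h4 : ∃ β', β ≤ β' ∧ (x ∈ (⋃ i, F i) → ∃ i, e i < β' ∧ x ∈ F i) := by
        by_cases hx : x ∈ ⋃ i, F i
        · obtain ⟨i, hi⟩ := mem_iUnion.1 hx
          obtain ⟨u, hu⟩ := exists_gt hκ (e i)
          exact ⟨max β u, le_max_left _ _, fun _ => ⟨i, hu.trans_le (le_max_right _ _), hi⟩⟩
        · exact ⟨β, le_rfl, fun h => absurd h hx⟩
      obtain ⟨β', h5, h6⟩ := h4
      obtain ⟨γ, h7, h8⟩ := diag hκ hunc e he (fun i γ => C i γ x) (fun i => (hS i).clo x)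
        (fun i β => (hS i).unb x β) β'
      refine ⟨γ, (h5.trans_lt h7).le, h8, fun hx => ?_⟩
      obtain ⟨i, h9, h10⟩ := h6 hx
      exact ⟨i, h9.trans h7, h10⟩
    all_goals
      intro γ
      have hcard : #{i // e i < γ} ≤ κ := (mk_subtype_le _).trans hI
      have hle : ∀ i, η i + 1 + 1 + 1 + 1 ≤ ξ + 1 + 1 + 1 := by
        intro i
        have := Order.add_one_le_of_lt (hlt i)
        exact add_le_add_left (add_le_add_left (add_le_add_left this 1) 1) 1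
      have hE1 := sig_iInter hκ (η := ξ + 1 + 1 + 1) (le_add_self) hcard
        (F := fun i => {x | C i.1 γ x}) fun i => sig_mono hO ((hS i.1).cmp' γ) (hle i.1)
      have hA : Sig κ ξ (⋃ i, F i) := Sig.union ξ hξ I hI F η h1 hlt h3
      have hA' : Sig κ (ξ + 1) (⋃ i, F i)ᶜ := hA.compl hκ
      have hF : Sig κ ξ (⋃ i : {i // e i < γ}, F i.1) :=
        Sig.union ξ hξ _ hcard _ (fun i => η i.1) (fun i => h1 _) (fun i => hlt _) fun i => h3 _
      have hE2 : Sig κ (ξ + 1) ((⋃ i, F i)ᶜ ∪ ⋃ i : {i // e i < γ}, F i.1) :=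
        sig_union hκ hA' (sig_mono hO hF le_self_add)
      have hE2' : Sig κ (ξ + 1 + 1) ((⋃ i, F i)ᶜ ∪ ⋃ i : {i // e i < γ}, F i.1)ᶜ := hE2.compl hκ
      have heq : {x : X | (∀ i, e i < γ → C i γ x) ∧ (x ∈ (⋃ i, F i) → ∃ i, e i < γ ∧ x ∈ F i)} =
          (⋂ i : {i // e i < γ}, {x | C i.1 γ x}) ∩
            ((⋃ i, F i)ᶜ ∪ ⋃ i : {i // e i < γ}, F i.1) := by
        ext x
        simp only [mem_ofPred_eq, mem_inter_iff, mem_iInter, mem_union, mem_compl_iff, mem_iUnion,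
          Subtype.forall, Subtype.exists, exists_prop]
        tauto
      rw [heq]
    · exact sig_inter hκ hO hE1.2 (sig_mono hO hE2 (by
        simp only [add_assoc]
        exact add_le_add_right le_self_add ξ))
    · rw [compl_inter]
      refine sig_union hκ (sig_mono hO hE1.1 le_self_add) (sig_mono hO hE2' ?_)
      simp only [add_assoc]
      exact add_le_add_right (add_le_add_right le_self_add 1) ξ

end Pool.Agent.W2helper54.GB
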