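import Mathlib
import Pool.Agent.W2helper54.GB.Sch
import Pool.Agent.W2helper54.GB.Defs

set_option autoImplicit false

/-!
# Functions in `M_{ξ+1}` are `κ`-limits of `cof ξ`-limits of functions in `M_{<ξ}`
-/

namespace Pool.Agent.W2helper54.GB

open Cardinal Set Filter Topology Ordinal Pool.Agent.R590.Kur Pool.Agent.R590.Brl

variable {κ : Cardinal.{0}}

/-- a cofinal sequence of ordinals -/
theorem exists_cofinal {ξ : Ordinal.{0}} (hlim : Order.IsSuccLimit ξ) :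
    ∃ ρ : ξ.cof.ord.ToType → Ordinal.{0}, (∀ ν, 1 < ρ ν) ∧ (∀ ν, ρ ν < ξ) ∧
      (∀ ν ν', ν ≤ ν' → ρ ν ≤ ρ ν') ∧ ∀ α < ξ, ∃ ν, α < ρ ν := by
  obtain ⟨f, hf⟩ := exists_isFundamentalSeq (o := ξ) rfl
  refine ⟨fun ν => (f (ToType.toOrd ν)).1 + 1 + 1, fun ν => ?_, fun ν => ?_, fun ν ν' h => ?_,
    fun α hα => ?_⟩
  · exact lt_of_le_of_lt le_add_self (lt_add_one _)
  · exact hlim.add_one_lt (hlim.add_one_lt (f _).2)
  · have h1 : ToType.toOrd ν ≤ ToType.toOrd ν' := by simpa [ToType.toOrd] using h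
    have h2 : (f (ToType.toOrd ν)).1 ≤ (f (ToType.toOrd ν')).1 := hf.strictMono.monotone h1
    exact add_le_add_left (add_le_add_left h2 1) 1
  · obtain ⟨_, ⟨c, rfl⟩, hc⟩ := hf.isCofinal_range ⟨α, hα⟩
    refine ⟨ToType.mk c, ?_⟩
    have h1 : ToType.toOrd (ToType.mk c) = c := by simp [ToType.toOrd]
    show α < (f (ToType.toOrd (ToType.mk c))).1 + 1 + 1
    rw [h1]
    exact lt_of_le_of_lt hc ((lt_add_one _).trans (lt_add_one _))

/-- splitting a set of limit rank -/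
theorem sig_split {X : Type} [TopologicalSpace X] {ξ : Ordinal.{0}}
    {A : Set X} (hA : Sig κ ξ A) (hξ : 1 < ξ) {M : Type} (ρ : M → Ordinal.{0})
    (h1 : ∀ ν, 1 < ρ ν) (h2 : ∀ α < ξ, ∃ ν, α < ρ ν) :
    ∃ Q : M → Set X, (∀ ν, Sig κ (ρ ν) (Q ν)) ∧ A = ⋃ ν, Q ν := by
  obtain ⟨I, F, η, hI, k1, k2, k3, rfl⟩ := sig_cases hA hξ
  refine ⟨fun ν => ⋃ i : {i // η i < ρ ν}, F i.1, fun ν => ?_, ?_⟩
  · exact Sig.union _ (h1 ν) _ ((mk_subtype_le _).trans hI) _ (fun i => η i.1) (fun i => k1 _)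
      (fun i => i.2) fun i => k3 _
  · ext x
    simp only [mem_iUnion]
    constructor
    · rintro ⟨i, hi⟩
      obtain ⟨ν, hν⟩ := h2 _ (k2 i)
      exact ⟨ν, ⟨i, hν⟩, hi⟩
    · rintro ⟨ν, i, hi⟩
      exact ⟨i.1, hi⟩

theorem pos (hκ : κ.IsRegular) (hunc : ℵ₀ < κ) (h2 : (2 : Cardinal.{0}) ^< κ = κ)
    {ξ : Ordinal.{0}} (hlim : Order.IsSuccLimit ξ) (hcof : ξ.cof < κ) (X Y : Set (Sp κ))
    (f : X → Y) (hf : f ∈ Meas κ X Y (ξ + 1)) :
    f ∈ Lim κ (Lim ξ.cof (MeasLT κ X Y ξ)) := by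
  classical
  have hξ0 : 0 < ξ := lt_of_le_of_ne (zero_le) (fun hh => not_isSuccLimit_zero (hh ▸ hlim))
  have hξ1 : 1 < ξ := by
    have := hlim.add_one_lt hξ0
    rwa [zero_add] at this
  rcases isEmpty_or_nonempty X with hX | ⟨⟨x0⟩⟩
  · refine ⟨fun _ => f, fun _ => ⟨fun _ => f, fun _ => ⟨1, le_rfl, hξ1, fun U _ => ?_⟩,
      fun x => isEmptyElim x⟩, fun x => isEmptyElim x⟩
    rw [Set.eq_empty_of_isEmpty (f ⁻¹' U)]
    exact Sig.opn _ isOpen_empty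
  have hO := opOK_sub hκ h2 X
  have hne := nonempty_of hκ
  -- the cofinal sequence
  obtain ⟨ρ, hρ1, hρ2, hρ3, hρ4⟩ := exists_cofinal hlim
  have hM : #(ξ.cof.ord.ToType) < κ := by rwa [mk_ord_toType]
  -- the pieces
  have hpc : ∀ s : Cy κ, ∃ (I : Type) (F : I → Set X) (Q : I → ξ.cof.ord.ToType → Set X),
      #I ≤ κ ∧ f ⁻¹' ((↑) ⁻¹' s.1) = ⋃ i, F i ∧ (∀ i, (F i)ᶜ = ⋃ ν, Q i ν) ∧
      ∀ i ν, Sig κ (ρ ν) (Q i ν) := by
    intro s
    have h1 := hf ((↑) ⁻¹' s.1) (clopen_pre hκ Y s.2).isOpen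
    obtain ⟨I, F, η, hI, k1, k2, k3, k4⟩ := sig_cases h1 (hξ1.trans (lt_add_one ξ))
    have k5 : ∀ i, ∃ Q : ξ.cof.ord.ToType → Set X, (∀ ν, Sig κ (ρ ν) (Q ν)) ∧ (F i)ᶜ = ⋃ ν, Q ν :=
      fun i => sig_split (sig_mono hO (k3 i) (Order.lt_add_one_iff.1 (k2 i))) hξ1 ρ hρ1 hρ4
    choose Q hQ1 hQ2 using k5
    exact ⟨I, F, Q, hI, k4, hQ2, fun i ν => hQ1 i ν⟩
  choose I F Q hI hF hFQ hQ using hpc
  let T0 : Type := Σ s : Cy κ, I s
  have hT0 : #T0 ≤ κ := by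
    rw [mk_sigma]
    refine (Cardinal.sum_le_mk_mul_iSup _).trans ?_
    calc #(Cy κ) * (⨆ s : Cy κ, #(I s)) ≤ κ * κ := mul_le_mul' (mk_Cy hκ h2) (ciSup_le' hI)
      _ = κ := mul_eq_self hκ.aleph0_le
  let T : Type := T0 × ξ.cof.ord.ToType
  have hT : #T ≤ κ := by
    rw [mk_prod, Cardinal.lift_id, Cardinal.lift_id]
    exact (mul_le_mul' hT0 hM.le).trans (mul_eq_self hκ.aleph0_le).le
  obtain ⟨E, hE⟩ : ∃ E : T0 ⊕ T → κ.ord.ToType, Function.Injective E := by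
    have h5 : #(T0 ⊕ T) ≤ #(κ.ord.ToType) := by
      rw [mk_ord_toType, mk_sum, Cardinal.lift_id, Cardinal.lift_id]
      exact (add_le_add hT0 hT).trans (add_eq_self hκ.aleph0_le).le
    obtain ⟨f⟩ := h5
    exact ⟨f, f.injective⟩
  -- the schemes
  have hsch : ∀ t : T, ∃ a C, Sch (Q t.1.1 t.1.2 t.2) (ρ t.2 + 1 + 1 + 1 + 1) a C := fun t =>
    exists_sch hκ hunc h2 (hQ t.1.1 t.1.2 t.2)
  choose a C hS using hsch
  -- the closed sets
  let C0 : κ.ord.ToType → Prop := fun γ => ∀ p : T0, E (Sum.inl p) < γ → ∀ ν, E (Sum.inr (p, ν)) < γ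
  let Cn : ξ.cof.ord.ToType → X → κ.ord.ToType → Prop := fun ν x γ =>
    C0 γ ∧ ∀ t : T, t.2 ≤ ν → E (Sum.inr t) < γ → C t γ x
  let Ci : X → κ.ord.ToType → Prop := fun x γ => C0 γ ∧ ∀ t : T, E (Sum.inr t) < γ → C t γ x
  have hC0clo : Clo C0 := by
    intro γ _ h p hp ν
    obtain ⟨β', h1, h2, h3⟩ := h _ hp
    exact (h3 p h1 ν).trans_le h2
  have hCnclo : ∀ ν x, Clo (Cn ν x) := by
    intro ν x γ h0 h
    refine ⟨hC0clo γ h0 fun β hβ => ?_, fun t ht hlt => (hS t).clo x γ h0 fun β hβ => ?_⟩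
    · obtain ⟨β', h1, h2, h3⟩ := h β hβ
      exact ⟨β', h1, h2, h3.1⟩
    · obtain ⟨β', h1, h2, h3⟩ := h (max β (E (Sum.inr t))) (max_lt hβ hlt)
      exact ⟨β', (le_max_left _ _).trans_lt h1, h2, h3.2 t ht ((le_max_right _ _).trans_lt h1)⟩
  have hCiclo : ∀ x, Clo (Ci x) := by
    intro x γ h0 h
    refine ⟨hC0clo γ h0 fun β hβ => ?_, fun t hlt => (hS t).clo x γ h0 fun β hβ => ?_⟩
    · obtain ⟨β', h1, h2, h3⟩ := h β hβ
      exact ⟨β', h1, h2, h3.1⟩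
    · obtain ⟨β', h1, h2, h3⟩ := h (max β (E (Sum.inr t))) (max_lt hβ hlt)
      exact ⟨β', (le_max_left _ _).trans_lt h1, h2, h3.2 t ((le_max_right _ _).trans_lt h1)⟩
  have hCibot : ∀ x γ, (∀ β, ¬ β < γ) → Ci x γ := fun x γ h =>
    ⟨fun p hp => absurd hp (h _), fun t ht => absurd ht (h _)⟩
  have hCnbot : ∀ ν x γ, (∀ β, ¬ β < γ) → Cn ν x γ := fun ν x γ h =>
    ⟨fun p hp => absurd hp (h _), fun t _ ht => absurd ht (h _)⟩
  have hCiunb : ∀ x β, ∃ γ, β < γ ∧ Ci x γ := by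
    intro x β
    let P : T0 ⊕ T → κ.ord.ToType → Prop := fun i γ =>
      i.elim (fun p => ∀ ν, E (Sum.inr (p, ν)) < γ) (fun t => C t γ x)
    obtain ⟨γ, h3, h4⟩ := diag hκ hunc E hE P (by
      rintro (p | t)
      · rintro γ ⟨β, hβ⟩ h ν
        obtain ⟨β', -, h1, h2⟩ := h β hβ
        exact (h2 ν).trans_le h1
      · exact (hS t).clo x) (by
      rintro (p | t) β
      · obtain ⟨u, hu⟩ := exists_ub hκ hM fun ν => E (Sum.inr (p, ν))
        exact ⟨max β u, le_max_left _ _, fun ν => (hu ν).trans_le (le_max_right _ _)⟩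
      · exact (hS t).unb x β) β
    exact ⟨γ, h3, fun p hp => h4 (Sum.inl p) hp, fun t ht => h4 (Sum.inr t) ht⟩
  -- maxima
  have hmaxn := fun ν x δ => exists_max (Cn ν x) (hCnclo ν x) (hCnbot ν x) δ
  have hmaxi := fun x δ => exists_max (Ci x) (hCiclo x) (hCibot x) δ
  choose gn hgn1 hgn2 hgn3 using hmaxn
  choose gi hgi1 hgi2 hgi3 using hmaxi
  -- the guess
  let G : Set (Set (Sp κ)) → Y := fun σ =>
    if h : ∃ y : Y, ∀ s ∈ σ, y.1 ∈ s then h.choose else f x0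
  have hG : ∀ σ : Set (Set (Sp κ)), (∃ y : Y, ∀ s ∈ σ, y.1 ∈ s) → ∀ s ∈ σ, (G σ).1 ∈ s := by
    intro σ h
    have h1 : G σ = h.choose := dif_pos h
    rw [h1]
    exact h.choose_spec
  let S : κ.ord.ToType → X → Set (Set (Sp κ)) := fun γ x =>
    {s | ∃ p : T0, p.1.1 = s ∧ E (Sum.inl p) < γ ∧ ∀ ν, ¬ a (p, ν) γ x}
  have hSloc : ∀ γ (x y : X), Agree y.1 x.1 γ → S γ x = S γ y := by
    intro γ x y hxy
    ext s
    constructor
    · rintro ⟨p, h1, h2, h3⟩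
      exact ⟨p, h1, h2, fun ν h => h3 ν ((hS _).loc γ y x hxy.symm h)⟩
    · rintro ⟨p, h1, h2, h3⟩
      exact ⟨p, h1, h2, fun ν h => h3 ν ((hS _).loc γ x y hxy h)⟩
  refine ⟨fun δ x => G (S (gi x δ) x), fun δ => ⟨fun ν x => G (S (gn ν x δ) x), fun ν => ?_,
    fun x => ?_⟩, fun x => ?_⟩
  · -- the functions are in `M_{<ξ}`
    set θ : Ordinal.{0} := ρ ν + 1 + 1 + 1 + 1 with hθ
    have hθ1 : 1 ≤ θ := le_add_self
    have hD : ∀ γ, Sig κ (θ + 1) {x | Cn ν x γ} ∧ Sig κ θ {x | Cn ν x γ}ᶜ := by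
      intro γ
      by_cases h0 : C0 γ
      · have h1 : {x | Cn ν x γ} = ⋂ t : {t : T // t.2 ≤ ν ∧ E (Sum.inr t) < γ},
            {x | C t.1 γ x} := by
          ext x
          simp only [mem_ofPred_eq, mem_iInter, Cn]
          exact ⟨fun h t => h.2 t.1 t.2.1 t.2.2, fun h => ⟨h0, fun t h1 h2 => h ⟨t, h1, h2⟩⟩⟩
        rw [h1]
        have h3 := sig_iInter hκ hθ1 ((mk_subtype_le _).trans hT)
          (F := fun t : {t : T // t.2 ≤ ν ∧ E (Sum.inr t) < γ} => {x | C t.1 γ x}) fun t =>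
            sig_mono hO ((hS t.1).cmp' γ) (by
              have := hρ3 _ _ t.2.1
              exact add_le_add_left (add_le_add_left (add_le_add_left
                (add_le_add_left this 1) 1) 1) 1)
        exact ⟨h3.2, h3.1⟩
      · have h1 : {x | Cn ν x γ} = ∅ := by
          ext x
          simp only [mem_ofPred_eq, mem_empty_iff_false, iff_false, Cn]
          exact fun h => h0 h.1
        rw [h1, compl_empty]
        exact ⟨sig_mono hO (Sig.opn _ isOpen_empty) (hθ1.trans le_self_add),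
          sig_mono hO (Sig.opn _ isOpen_univ) hθ1⟩
    refine ⟨θ + 1 + 1, le_add_self, hlim.add_one_lt (hlim.add_one_lt (hlim.add_one_lt
      (hlim.add_one_lt (hlim.add_one_lt (hlim.add_one_lt (hρ2 ν)))))), fun U _ => ?_⟩
    have h1 : (fun x => G (S (gn ν x δ) x)) ⁻¹' U = ⋃ γ : {γ // γ ≤ δ},
        (({x | Cn ν x γ.1} ∩ ⋂ γ' : {γ' // γ.1 < γ' ∧ γ' ≤ δ}, {x | Cn ν x γ'.1}ᶜ) ∩
          {x | G (S γ.1 x) ∈ U}) := by
      ext x
      simp only [mem_preimage, mem_iUnion, mem_inter_iff, mem_iInter, mem_compl_iff, mem_ofPred_eq]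
      constructor
      · intro h
        refine ⟨⟨gn ν x δ, hgn1 ν x δ⟩, ⟨hgn2 ν x δ, fun γ' hγ' => ?_⟩, h⟩
        exact absurd (hgn3 ν x δ γ'.1 γ'.2.2 hγ') (not_le.2 γ'.2.1)
      · rintro ⟨γ, ⟨h1, h2⟩, h3⟩
        have h4 : γ.1 = gn ν x δ := by
          refine le_antisymm (hgn3 ν x δ γ.1 γ.2 h1) ?_
          by_contra hc
          exact h2 ⟨gn ν x δ, not_le.1 hc, hgn1 ν x δ⟩ (hgn2 ν x δ)
        rwa [h4] at h3
    rw [h1]
    refine sig_iUnion hκ le_add_self ((mk_subtype_le _).trans (mk_ord_toType κ).le) fun γ => ?_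
    refine sig_inter hκ hO (sig_inter hκ hO (sig_mono hO (hD γ.1).1 le_self_add) ?_) ?_
    · refine (sig_iInter hκ le_add_self ((mk_subtype_le _).trans (mk_ord_toType κ).le)
        fun γ' => ?_).2
      rw [compl_compl]
      exact (hD γ'.1).1
    · refine sig_mono hO (Sig.opn _ (isOpen_loc hκ γ.1 fun x y hxy h => ?_)) le_add_self
      show G (S γ.1 y) ∈ U
      rw [← hSloc γ.1 x y hxy]
      exact h
  · -- the inner limit
    have hanti : ∀ ν ν', ν ≤ ν' → gn ν' x δ ≤ gn ν x δ := fun ν ν' h =>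
      hgn3 ν x δ _ (hgn1 ν' x δ) ⟨(hgn2 ν' x δ).1, fun t ht => (hgn2 ν' x δ).2 t (ht.trans h)⟩
    have hνne : Nonempty ξ.cof.ord.ToType := by
      obtain ⟨ν, -⟩ := hρ4 0 hξ0
      exact ⟨ν⟩
    obtain ⟨g, ⟨ν0, hν0⟩, hmin⟩ := exists_min (fun g => ∃ ν, gn ν x δ = g)
      ⟨_, Classical.arbitrary _, rfl⟩
    have hconst : ∀ ν, ν0 ≤ ν → gn ν x δ = g := fun ν h =>
      le_antisymm ((hanti ν0 ν h).trans hν0.le) (hmin _ ⟨ν, rfl⟩)
    have hCig : Ci x g := by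
      refine ⟨?_, fun t ht => ?_⟩
      · rw [← hν0]
        exact (hgn2 ν0 x δ).1
      · have h1 := hconst (max ν0 t.2) (le_max_left _ _)
        have h3 := (hgn2 (max ν0 t.2) x δ).2 t (le_max_right _ _)
        rw [h1] at h3
        exact h3 ht
    have hg : gi x δ = g := by
      refine le_antisymm ?_ (hgi3 x δ g ?_ hCig)
      · rw [← hν0]
        exact hgn3 ν0 x δ _ (hgi1 x δ) ⟨(hgi2 x δ).1, fun t _ => (hgi2 x δ).2 t⟩
      · rw [← hν0]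
        exact hgn1 ν0 x δ
    refine tendsto_nhds_of_eventually_eq ?_
    filter_upwards [eventually_ge_atTop ν0] with ν hν
    rw [hconst ν hν, hg]
  · -- the outer limit
    rw [tendsto_nhds]
    intro U hU hx
    obtain ⟨α, hα⟩ := exists_nhd hκ hU hx
    let s : Cy κ := ⟨{y | Agree y (f x).1 α}, (f x).1, α, rfl⟩
    have hxs : x ∈ f ⁻¹' ((↑) ⁻¹' s.1) := Agree.refl _ _
    rw [hF s] at hxs
    obtain ⟨i, hi⟩ := mem_iUnion.1 hxs
    let p : T0 := ⟨s, i⟩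
    obtain ⟨γ0, h3, h4⟩ := hCiunb x (E (Sum.inl p))
    filter_upwards [eventually_ge_atTop γ0] with δ hδ
    have h5 : γ0 ≤ gi x δ := hgi3 x δ γ0 hδ h4
    have h6 := hgi2 x δ
    have hcor : ∀ (q : T0), E (Sum.inl q) < gi x δ → ∀ ν,
        (a (q, ν) (gi x δ) x ↔ x ∈ Q q.1 q.2 ν) := fun q hq ν =>
      (hS (q, ν)).cor _ x (h6.2 (q, ν) (h6.1 q hq ν))
    have hmem : s.1 ∈ S (gi x δ) x := by
      refine ⟨p, rfl, h3.trans_le h5, fun ν h => ?_⟩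
      have h7 := (hcor p (h3.trans_le h5) ν).1 h
      have h8 : x ∈ (F s i)ᶜ := by
        rw [hFQ s i]
        exact mem_iUnion.2 ⟨ν, h7⟩
      exact h8 hi
    refine hα _ (hG _ ⟨f x, ?_⟩ s.1 hmem)
    rintro s' ⟨q, rfl, hq, hq'⟩
    have h9 : x ∈ F q.1 q.2 := by
      by_contra hc
      have h10 : x ∈ (F q.1 q.2)ᶜ := hc
      rw [hFQ] at h10
      obtain ⟨ν, hν⟩ := mem_iUnion.1 h10
      exact hq' ν ((hcor q hq ν).2 hν)
    have h11 : x ∈ ⋃ i, F q.1 i := mem_iUnion.2 ⟨q.2, h9⟩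
    rw [← hF q.1] at h11
    exact h11

end Pool.Agent.W2helper54.GB
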