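import Mathlib
import Pool.Agent.W2helper54.GB.Neg
import Pool.Agent.W2helper54.GB.Pos

set_option autoImplicit false

/-!
# Stable limits do not suffice
-/

namespace Pool.Agent.W2helper54.GB

open Cardinal Set Filter Topology Ordinal Pool.Agent.R590.Kur Pool.Agent.R590.Brl

variable {κ : Cardinal.{0}}

theorem hatLim_sig (hκ : κ.IsRegular) {X Y : Type} [TopologicalSpace X] [TopologicalSpace Y]
    (hO : OpOK κ X) {ξ : Ordinal.{0}} (hξ : 1 ≤ ξ) {μ : Cardinal.{0}} (hμ : μ ≤ κ) {f : X → Y}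
    (hf : f ∈ HatLim κ ξ μ (MeasLT κ X Y ξ)) {U : Set Y} (hU : IsOpen U) :
    Sig κ ξ (f ⁻¹' U) := by
  obtain ⟨g, E, h1, h2, -, h4, h5⟩ := hf
  have h6 : f ⁻¹' U = ⋃ i, (E i ∩ g i ⁻¹' U) := by
    ext x
    simp only [mem_preimage, mem_iUnion, mem_inter_iff]
    constructor
    · intro hx
      obtain ⟨i, hi⟩ := h4 x
      refine ⟨i, hi, ?_⟩
      rw [h5 i i le_rfl x hi]
      exact hx
    · rintro ⟨i, hi, hx⟩
      rwa [h5 i i le_rfl x hi] at hx
  rw [h6]
  refine sig_iUnion hκ hξ (by rwa [mk_ord_toType]) fun i => ?_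
  obtain ⟨η, -, h7, h8⟩ := h1 i
  exact sig_inter hκ hO (h2 i) (sig_mono hO (h8 U hU) h7.le)

theorem neg (hκ : κ.IsRegular) (hunc : ℵ₀ < κ) (h2 : (2 : Cardinal.{0}) ^< κ = κ)
    {ξ : Ordinal.{0}} (hlim : Order.IsSuccLimit ξ) (hξ : ξ < (Order.succ κ).ord)
    (hcof : ξ.cof < κ) (Y : Set (Sp κ)) (hY : Y.Nontrivial) :
    ∃ f ∈ Meas κ (Set.univ : Set (Sp κ)) Y (ξ + 1),
      f ∉ Lim κ (HatLim κ ξ ξ.cof (MeasLT κ (Set.univ : Set (Sp κ)) Y ξ)) := by
  classical
  have hne := nonempty_of hκ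
  have hξ0 : 0 < ξ := lt_of_le_of_ne (zero_le) (fun hh => not_isSuccLimit_zero (hh ▸ hlim))
  have hO := opOK_sub hκ h2 (Set.univ : Set (Sp κ))
  obtain ⟨B, hB1, hB2⟩ := exists_bad hκ hunc h2 hlim hcof hξ
  obtain ⟨y1, hy1, y0, hy0, hy⟩ := hY
  let f : ↥(Set.univ : Set (Sp κ)) → Y := fun x => if x.1 ∈ B then ⟨y1, hy1⟩ else ⟨y0, hy0⟩
  have hf1 : ∀ x, x.1 ∈ B → f x = ⟨y1, hy1⟩ := fun x hx => if_pos hx
  have hf0 : ∀ x, x.1 ∉ B → f x = ⟨y0, hy0⟩ := fun x hx => if_neg hx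
  refine ⟨f, fun U _ => ?_, ?_⟩
  · have hBc : Sig κ ξ ((↑) ⁻¹' Bᶜ : Set (Set.univ : Set (Sp κ))) :=
      sig_preimage continuous_subtype_val hB1
    have hBs : Sig κ (ξ + 1) ((↑) ⁻¹' B : Set (Set.univ : Set (Sp κ))) := by
      have := hBc.compl hκ
      rwa [preimage_compl, compl_compl] at this
    have h0 : Sig κ (ξ + 1) (if (⟨y1, hy1⟩ : Y) ∈ U then
        ((↑) ⁻¹' B : Set (Set.univ : Set (Sp κ))) else ∅) := by
      split_ifs
      · exact hBs
      · exact sig_mono hO (Sig.opn _ isOpen_empty) le_add_self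
    have h0' : Sig κ (ξ + 1) (if (⟨y0, hy0⟩ : Y) ∈ U then
        ((↑) ⁻¹' Bᶜ : Set (Set.univ : Set (Sp κ))) else ∅) := by
      split_ifs
      · exact sig_mono hO hBc le_self_add
      · exact sig_mono hO (Sig.opn _ isOpen_empty) le_add_self
    have h3 := sig_union hκ h0 h0'
    convert h3 using 1
    ext x
    by_cases hx : x.1 ∈ B
    · simp only [mem_preimage, hf1 x hx, mem_union]
      constructor
      · intro h
        rw [if_pos h]
        exact Or.inl hx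
      · rintro (h | h)
        · by_contra hc
          rw [if_neg hc] at h
          exact h
        · split_ifs at h
          · exact absurd hx h
          · exact absurd h (notMem_empty _)
    · simp only [mem_preimage, hf0 x hx, mem_union]
      constructor
      · intro h
        rw [if_pos h]
        exact Or.inr hx
      · rintro (h | h)
        · split_ifs at h
          · exact absurd h hx
          · exact absurd h (notMem_empty _)
        · by_contra hc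
          rw [if_neg hc] at h
          exact h
  · rintro ⟨g, hg, hl⟩
    obtain ⟨β, hβ⟩ := Function.ne_iff.1 hy
    obtain ⟨α, hα⟩ := exists_gt hκ β
    let U : Set Y := (↑) ⁻¹' {y | Agree y y1 α}
    have hU : IsClopen U := clopen_pre hκ Y ⟨y1, α, rfl⟩
    have hU1 : (⟨y1, hy1⟩ : Y) ∈ U := Agree.refl _ _
    have hU0 : (⟨y0, hy0⟩ : Y) ∉ U := fun h => hβ (h β hα).symm
    refine hB2 (fun i => (fun w => (⟨w, trivial⟩ : (Set.univ : Set (Sp κ)))) ⁻¹' (g i ⁻¹' U))
      (fun i => ?_) fun w => ?_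
    · exact sig_preimage (continuous_id.subtype_mk _)
        (hatLim_sig hκ hO (Order.one_le_iff_pos.2 hξ0) hcof.le (hg i) hU.isOpen)
    · by_cases hw : w ∈ B
      · have h3 := hl ⟨w, trivial⟩
        rw [hf1 _ hw] at h3
        obtain ⟨β0, hβ0⟩ := mem_atTop_sets.1 (h3 (hU.isOpen.mem_nhds hU1))
        exact ⟨β0, fun i hi => ⟨fun _ => hw, fun _ => hβ0 i hi⟩⟩
      · have h3 := hl ⟨w, trivial⟩
        rw [hf0 _ hw] at h3
        obtain ⟨β0, hβ0⟩ := mem_atTop_sets.1 (h3 (hU.compl.isOpen.mem_nhds hU0))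
        exact ⟨β0, fun i hi => ⟨fun h => absurd h (hβ0 i hi), fun h => absurd h hw⟩⟩

end Pool.Agent.W2helper54.GB
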